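import Mathlib

set_option autoImplicit false

namespace Pool.Agent.H79.EO

open Finset Classical

/-- Either there is a transversal all of whose pairs are related, or there is a pair of large
subsets between which all degrees are small. -/
theorem transversal_or_sparse {V : Type*} (τ : ℝ) (hτ : 0 < τ) (hτ1 : τ ≤ 1) (K : ℕ) :
    ∀ (n : ℕ), n ≤ K → ∀ (X : Fin n → Finset V) (E : Fin n → Fin n → V → V → Prop),
    (∀ a, (X a).Nonempty) →
    (∃ v : Fin n → V, (∀ a, v a ∈ X a) ∧ ∀ a b, a < b → E a b (v a) (v b)) ∨
    (∃ a b, a < b ∧ ∃ A B : Finset V, A ⊆ X a ∧ B ⊆ X b ∧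
      τ ^ n * ((X a).card : ℝ) ≤ K * A.card ∧ τ ^ n * ((X b).card : ℝ) ≤ B.card ∧
      ∀ v ∈ A, ((B.filter (fun y => E a b v y)).card : ℝ) < τ * B.card) := by
  intro n
  induction n with
  | zero =>
    intro _ X E _
    left
    exact ⟨fun a => a.elim0, fun a => a.elim0, fun a => a.elim0⟩
  | succ n ih =>
    intro hnK X E hX
    by_cases hgood : ∃ v ∈ X 0, ∀ b : Fin n,
        τ * ((X b.succ).card : ℝ) ≤ ((X b.succ).filter (fun y => E 0 b.succ v y)).card
    · obtain ⟨v, hv, hvb⟩ := hgood
      have hne : ∀ b : Fin n, ((X b.succ).filter (fun y => E 0 b.succ v y)).Nonempty := by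
        intro b
        rw [← Finset.card_pos]
        have h1 : (0 : ℝ) < (X b.succ).card := by
          exact_mod_cast Finset.card_pos.2 (hX b.succ)
        have h2 := hvb b
        have h3 : (0 : ℝ) < ((X b.succ).filter (fun y => E 0 b.succ v y)).card :=
          lt_of_lt_of_le (mul_pos hτ h1) h2
        exact_mod_cast h3
      rcases ih (by omega) (fun b => (X b.succ).filter (fun y => E 0 b.succ v y))
        (fun a b => E a.succ b.succ) hne with ⟨w, hw1, hw2⟩ | ⟨a, b, hab, A, B, hA, hB, h1, h2, h3⟩
      · left
        refine ⟨Fin.cons v w, ?_, ?_⟩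
        · intro a
          refine Fin.cases ?_ (fun a => ?_) a
          · simpa using hv
          · have := hw1 a
            rw [Finset.mem_filter] at this
            simpa using this.1
        · intro a b
          refine Fin.cases ?_ (fun a => ?_) a
          · refine Fin.cases ?_ (fun b => ?_) b
            · intro h; exact absurd h (lt_irrefl _)
            · intro _
              have := hw1 b
              rw [Finset.mem_filter] at this
              simpa using this.2
          · refine Fin.cases ?_ (fun b => ?_) b
            · intro h; exact absurd h (by simp)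
            · intro h
              simpa using hw2 a b (by simpa using h)
      · right
        refine ⟨a.succ, b.succ, by simpa using hab, A, B, hA.trans (Finset.filter_subset _ _),
          hB.trans (Finset.filter_subset _ _), ?_, ?_, h3⟩
        · refine le_trans ?_ h1
          have := mul_le_mul_of_nonneg_left (hvb a) (pow_nonneg hτ.le n)
          calc τ ^ (n + 1) * ((X a.succ).card : ℝ) = τ ^ n * (τ * (X a.succ).card) := by ring
            _ ≤ _ := this
        · refine le_trans ?_ h2
          have := mul_le_mul_of_nonneg_left (hvb b) (pow_nonneg hτ.le n)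
          calc τ ^ (n + 1) * ((X b.succ).card : ℝ) = τ ^ n * (τ * (X b.succ).card) := by ring
            _ ≤ _ := this
    · right
      push Not at hgood
      -- pigeonhole
      have hpig : ∃ b : Fin n, ((X 0).card : ℝ) ≤ n * ((X 0).filter (fun v =>
          (((X b.succ).filter (fun y => E 0 b.succ v y)).card : ℝ) <
            τ * (X b.succ).card)).card := by
        by_contra hcon
        push Not at hcon
        have hcov : (X 0).card ≤ ∑ b : Fin n, ((X 0).filter (fun v =>
          (((X b.succ).filter (fun y => E 0 b.succ v y)).card : ℝ) <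
            τ * (X b.succ).card)).card := by
          refine le_trans (Finset.card_le_card ?_) Finset.card_biUnion_le
          intro v hv
          obtain ⟨b, hb⟩ := hgood v hv
          rw [Finset.mem_biUnion]
          exact ⟨b, Finset.mem_univ _, Finset.mem_filter.2 ⟨hv, hb⟩⟩
        have hn0 : 0 < n := by
          obtain ⟨v, hv⟩ := hX 0
          obtain ⟨b, _⟩ := hgood v hv
          exact lt_of_le_of_lt (Nat.zero_le _) b.isLt
        have hcov' : ((X 0).card : ℝ) ≤ ∑ b : Fin n, (((X 0).filter (fun v =>
          (((X b.succ).filter (fun y => E 0 b.succ v y)).card : ℝ) <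
            τ * (X b.succ).card)).card : ℝ) := by exact_mod_cast hcov
        have hn0' : (0 : ℝ) < n := by exact_mod_cast hn0
        have hlt : ∑ b : Fin n, (((X 0).filter (fun v =>
          (((X b.succ).filter (fun y => E 0 b.succ v y)).card : ℝ) <
            τ * (X b.succ).card)).card : ℝ) < ∑ _b : Fin n, ((X 0).card : ℝ) / n := by
          apply Finset.sum_lt_sum_of_nonempty
          · exact ⟨⟨0, hn0⟩, Finset.mem_univ _⟩
          · intro b _
            rw [lt_div_iff₀ hn0', mul_comm]
            exact hcon b
        rw [Finset.sum_const, Finset.card_univ, Fintype.card_fin, nsmul_eq_mul,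
          mul_div_cancel₀ _ hn0'.ne'] at hlt
        linarith
      obtain ⟨b, hb⟩ := hpig
      have hpow : τ ^ (n + 1) ≤ 1 := pow_le_one₀ hτ.le hτ1
      refine ⟨0, b.succ, Fin.succ_pos b, _, X b.succ, Finset.filter_subset _ _, subset_rfl,
        ?_, ?_, fun v hv => (Finset.mem_filter.1 hv).2⟩
      · refine le_trans (mul_le_of_le_one_left (Nat.cast_nonneg _) hpow) (le_trans hb ?_)
        apply mul_le_mul_of_nonneg_right _ (Nat.cast_nonneg _)
        exact_mod_cast (by omega : n ≤ K)
      · exact mul_le_of_le_one_left (Nat.cast_nonneg _) hpow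

end Pool.Agent.H79.EO
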