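import Pool.Agent.H79.EOPart1

set_option autoImplicit false

namespace Pool.Agent.H79.EO

open Finset Classical

variable {V : Type*}

/-- number of red pairs with label `ℓ` between `Y` and `Z` -/
noncomputable def cnt (c : V → V → ℕ) (red : V → V → Prop) (ℓ : ℕ) (Y Z : Finset V) : ℕ :=
  ((Y ×ˢ Z).filter (fun p => c p.1 p.2 = ℓ ∧ red p.1 p.2)).card

/-- `Y` and `Z` are disjoint and all labels of the window `[i * m, (i + 1) * m)` are rarely red
between them -/
def Rel (c : V → V → ℕ) (red : V → V → Prop) (m : ℕ) (κ : ℝ) (i : ℕ) (Y Z : Finset V) : Prop :=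
  Disjoint Y Z ∧ ∀ q < m, (cnt c red (i * m + q) Y Z : ℝ) ≤ κ * Y.card * Z.card

/-- `X` contains `2 ^ k` sets of size at least `s` which are pairwise in the relation `Rel` -/
def Str (c : V → V → ℕ) (red : V → V → Prop) (m : ℕ) (κ s : ℝ) (i k : ℕ) (X : Finset V) : Prop :=
  ∃ l : List (Finset V), l.length = 2 ^ k ∧ (∀ Y ∈ l, Y ⊆ X ∧ s ≤ (Y.card : ℝ)) ∧
    l.Pairwise (Rel c red m κ i)

lemma cnt_eq_left (c : V → V → ℕ) (red : V → V → Prop) (ℓ : ℕ) (Y Z : Finset V) :
    cnt c red ℓ Y Z = ∑ y ∈ Y, (Z.filter (fun z => c y z = ℓ ∧ red y z)).card := by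
  unfold cnt
  rw [Finset.card_filter, Finset.sum_product]
  apply Finset.sum_congr rfl
  intro y _
  rw [Finset.card_filter]

lemma cnt_eq_right (c : V → V → ℕ) (red : V → V → Prop) (ℓ : ℕ) (Y Z : Finset V) :
    cnt c red ℓ Y Z = ∑ z ∈ Z, (Y.filter (fun y => c y z = ℓ ∧ red y z)).card := by
  unfold cnt
  rw [Finset.card_filter, Finset.sum_product_right]
  apply Finset.sum_congr rfl
  intro y _
  rw [Finset.card_filter]

/-- few vertices of `B` have large degree to `Y` -/
lemma few_high (c : V → V → ℕ) (red : V → V → Prop) (τ κ : ℝ)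
    (ℓ : ℕ) (Y B : Finset V)
    (hY : Y.Nonempty) (hdeg : ∀ v ∈ Y, ((B.filter (fun y => c v y = ℓ ∧ red v y)).card : ℝ) <
      τ * B.card) :
    κ * ((B.filter (fun b => κ * (Y.card : ℝ) <
      (Y.filter (fun y => c y b = ℓ ∧ red y b)).card)).card : ℝ) ≤ τ * B.card := by
  have hYpos : (0 : ℝ) < Y.card := by exact_mod_cast Finset.card_pos.2 hY
  have h1 : (cnt c red ℓ Y B : ℝ) ≤ Y.card * (τ * B.card) := by
    rw [cnt_eq_left]
    push_cast
    calc ∑ y ∈ Y, ((B.filter (fun z => c y z = ℓ ∧ red y z)).card : ℝ)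
        ≤ ∑ _y ∈ Y, τ * B.card := Finset.sum_le_sum (fun y hy => (hdeg y hy).le)
      _ = Y.card * (τ * B.card) := by rw [Finset.sum_const, nsmul_eq_mul]
  have h2 : ((B.filter (fun b => κ * (Y.card : ℝ) <
      (Y.filter (fun y => c y b = ℓ ∧ red y b)).card)).card : ℝ) * (κ * Y.card) ≤
      (cnt c red ℓ Y B : ℝ) := by
    rw [cnt_eq_right]
    push_cast
    calc ((B.filter (fun b => κ * (Y.card : ℝ) <
          (Y.filter (fun y => c y b = ℓ ∧ red y b)).card)).card : ℝ) * (κ * Y.card)
        = ∑ _b ∈ B.filter (fun b => κ * (Y.card : ℝ) <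
          (Y.filter (fun y => c y b = ℓ ∧ red y b)).card), κ * (Y.card : ℝ) := by
            rw [Finset.sum_const, nsmul_eq_mul]
      _ ≤ ∑ b ∈ B.filter (fun b => κ * (Y.card : ℝ) <
          (Y.filter (fun y => c y b = ℓ ∧ red y b)).card),
          ((Y.filter (fun y => c y b = ℓ ∧ red y b)).card : ℝ) :=
            Finset.sum_le_sum (fun b hb => (Finset.mem_filter.1 hb).2.le)
      _ ≤ ∑ b ∈ B, ((Y.filter (fun y => c y b = ℓ ∧ red y b)).card : ℝ) :=
            Finset.sum_le_sum_of_subset_of_nonneg (Finset.filter_subset _ _)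
              (fun _ _ _ => Nat.cast_nonneg _)
  have h3 := h2.trans h1
  have h4 : (Y.card : ℝ) * (κ * ((B.filter (fun b => κ * (Y.card : ℝ) <
      (Y.filter (fun y => c y b = ℓ ∧ red y b)).card)).card : ℝ)) ≤ Y.card * (τ * B.card) := by
    linarith
  exact le_of_mul_le_mul_left h4 hYpos

/-- combining structures on both sides of a sparse pair -/
lemma combine (c : V → V → ℕ) (red : V → V → Prop) (m : ℕ) (τ κ s : ℝ) (hκ : 0 < κ)
    (hs : 0 < s) (k : ℕ) (X A B : Finset V) (hAX : A ⊆ X) (hBX : B ⊆ X) (hAB : Disjoint A B)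
    (I : Finset ℕ) (hI : ((I.card : ℝ) * 2 ^ k * m) * τ ≤ κ / 2)
    (hstr : ∀ i ∈ I, Str c red m κ s i k A)
    (hdeg : ∀ i ∈ I, ∀ q < m, ∀ v ∈ A,
      ((B.filter (fun y => c v y = i * m + q ∧ red v y)).card : ℝ) < τ * B.card) :
    ∃ B' : Finset V, B' ⊆ B ∧ (B.card : ℝ) ≤ 2 * B'.card ∧
      ∀ i ∈ I, Str c red m κ s i k B' → Str c red m κ s i (k + 1) X := by
  choose! l hl1 hl2 hl3 using hstr
  -- bad vertices
  let bad : ℕ → Finset V → ℕ → Finset V := fun i Y q =>
    B.filter (fun b => κ * (Y.card : ℝ) < (Y.filter (fun y => c y b = i * m + q ∧ red y b)).card)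
  let Bad : Finset V := I.biUnion (fun i => (l i).toFinset.biUnion
    (fun Y => (Finset.range m).biUnion (fun q => bad i Y q)))
  have hbad : ∀ i ∈ I, ∀ Y ∈ (l i).toFinset, ∀ q ∈ Finset.range m,
      κ * ((bad i Y q).card : ℝ) ≤ τ * B.card := by
    intro i hi Y hY q hq
    rw [List.mem_toFinset] at hY
    obtain ⟨hYA, hYs⟩ := hl2 i hi Y hY
    apply few_high c red τ κ (i * m + q) Y B
    · rw [← Finset.card_pos]
      have : (0 : ℝ) < Y.card := lt_of_lt_of_le hs hYs
      exact_mod_cast this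
    · intro v hv
      exact hdeg i hi q (Finset.mem_range.1 hq) v (hYA hv)
  have hBad : κ * (Bad.card : ℝ) ≤ ((I.card : ℝ) * 2 ^ k * m) * (τ * B.card) := by
    have h1 : (Bad.card : ℝ) ≤ ∑ i ∈ I, ∑ Y ∈ (l i).toFinset, ∑ q ∈ Finset.range m,
        ((bad i Y q).card : ℝ) := by
      have : Bad.card ≤ ∑ i ∈ I, ∑ Y ∈ (l i).toFinset, ∑ q ∈ Finset.range m,
          (bad i Y q).card := by
        refine Finset.card_biUnion_le.trans (Finset.sum_le_sum (fun i _ => ?_))
        refine Finset.card_biUnion_le.trans (Finset.sum_le_sum (fun Y _ => ?_))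
        exact Finset.card_biUnion_le
      exact_mod_cast this
    have hτB : 0 ≤ τ * (B.card : ℝ) ∨ I = ∅ ∨ m = 0 := by
      by_cases hI0 : I = ∅
      · exact Or.inr (Or.inl hI0)
      by_cases hm0 : m = 0
      · exact Or.inr (Or.inr hm0)
      left
      obtain ⟨i, hi⟩ := Finset.nonempty_iff_ne_empty.2 hI0
      have hlen := hl1 i hi
      have hpos : 0 < (l i).length := by rw [hlen]; positivity
      have hYmem : (l i)[0] ∈ l i := List.getElem_mem hpos
      have := hbad i hi _ (List.mem_toFinset.2 hYmem) 0 (Finset.mem_range.2 (Nat.pos_of_ne_zero hm0))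
      refine le_trans ?_ this
      positivity
    rcases hτB with hτB | hI0 | hm0
    · calc κ * (Bad.card : ℝ) ≤ κ * ∑ i ∈ I, ∑ Y ∈ (l i).toFinset, ∑ q ∈ Finset.range m,
            ((bad i Y q).card : ℝ) := mul_le_mul_of_nonneg_left h1 hκ.le
        _ = ∑ i ∈ I, ∑ Y ∈ (l i).toFinset, ∑ q ∈ Finset.range m,
            κ * ((bad i Y q).card : ℝ) := by simp only [Finset.mul_sum]
        _ ≤ ∑ i ∈ I, ∑ Y ∈ (l i).toFinset, ∑ q ∈ Finset.range m, τ * (B.card : ℝ) :=
            Finset.sum_le_sum (fun i hi => Finset.sum_le_sum (fun Y hY =>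
              Finset.sum_le_sum (fun q hq => hbad i hi Y hY q hq)))
        _ = ∑ i ∈ I, ((l i).toFinset.card : ℝ) * (m * (τ * B.card)) := by
            simp only [Finset.sum_const, Finset.card_range, nsmul_eq_mul]
        _ ≤ ∑ _i ∈ I, (2 ^ k : ℝ) * (m * (τ * B.card)) := by
            apply Finset.sum_le_sum
            intro i hi
            apply mul_le_mul_of_nonneg_right _ (by positivity)
            have : (l i).toFinset.card ≤ 2 ^ k := by
              rw [← hl1 i hi]; exact List.toFinset_card_le _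
            exact_mod_cast this
        _ = ((I.card : ℝ) * 2 ^ k * m) * (τ * B.card) := by
            rw [Finset.sum_const, nsmul_eq_mul]; ring
    · have : Bad = ∅ := by simp [Bad, hI0]
      rw [this, hI0]; simp
    · have : Bad = ∅ := by
        apply Finset.eq_empty_of_forall_notMem
        intro x hx
        simp only [Bad, Finset.mem_biUnion, Finset.mem_range] at hx
        obtain ⟨_, _, _, _, q, hq, _⟩ := hx
        omega
      rw [this, hm0]; simp
  have hBad2 : (Bad.card : ℝ) ≤ B.card / 2 := by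
    have h1 : ((I.card : ℝ) * 2 ^ k * m) * (τ * B.card) ≤ κ / 2 * B.card := by
      have := mul_le_mul_of_nonneg_right hI (Nat.cast_nonneg (α := ℝ) B.card)
      linarith
    have h2 := hBad.trans h1
    have h3 : κ * (Bad.card : ℝ) ≤ κ * (B.card / 2) := by linarith
    exact le_of_mul_le_mul_left h3 hκ
  refine ⟨B \ Bad, Finset.sdiff_subset, ?_, ?_⟩
  · have h1 : B.card ≤ (B \ Bad).card + Bad.card := by
      have := Finset.card_sdiff_add_card B Bad
      calc B.card ≤ (B ∪ Bad).card := Finset.card_le_card Finset.subset_union_left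
        _ = (B \ Bad).card + Bad.card := this.symm
    have h2 : (B.card : ℝ) ≤ (B \ Bad).card + Bad.card := by exact_mod_cast h1
    linarith
  · rintro i hi ⟨l', h1', h2', h3'⟩
    refine ⟨l i ++ l', ?_, ?_, ?_⟩
    · rw [List.length_append, hl1 i hi, h1', pow_succ]; ring
    · intro Y hY
      rw [List.mem_append] at hY
      rcases hY with hY | hY
      · exact ⟨(hl2 i hi Y hY).1.trans hAX, (hl2 i hi Y hY).2⟩
      · exact ⟨(h2' Y hY).1.trans (Finset.sdiff_subset.trans hBX), (h2' Y hY).2⟩
    · rw [List.pairwise_append]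
      refine ⟨hl3 i hi, h3', ?_⟩
      intro Y hY Z hZ
      refine ⟨?_, ?_⟩
      · exact Finset.disjoint_of_subset_left (hl2 i hi Y hY).1
          (Finset.disjoint_of_subset_right ((h2' Z hZ).1.trans Finset.sdiff_subset) hAB)
      · intro q hq
        rw [cnt_eq_right]
        push_cast
        calc ∑ z ∈ Z, ((Y.filter (fun y => c y z = i * m + q ∧ red y z)).card : ℝ)
            ≤ ∑ _z ∈ Z, κ * (Y.card : ℝ) := by
              apply Finset.sum_le_sum
              intro z hz
              by_contra hcon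
              push Not at hcon
              have hzB := (h2' Z hZ).1 hz
              rw [Finset.mem_sdiff] at hzB
              apply hzB.2
              simp only [Bad, Finset.mem_biUnion]
              exact ⟨i, hi, Y, List.mem_toFinset.2 hY, q, Finset.mem_range.2 hq,
                Finset.mem_filter.2 ⟨hzB.1, hcon⟩⟩
          _ = κ * Y.card * Z.card := by rw [Finset.sum_const, nsmul_eq_mul]; ring

/-- disjoint subsets of almost equal size -/
lemma exists_parts (n : ℕ) (hn : 0 < n) (X : Finset V) (hX : n ≤ X.card) :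
    ∃ P : Fin n → Finset V, (∀ a, P a ⊆ X) ∧ (∀ a b, a ≠ b → Disjoint (P a) (P b)) ∧
      ∀ a, (X.card : ℝ) ≤ 2 * n * (P a).card := by
  obtain ⟨w, hw⟩ : ∃ w, w = X.card / n := ⟨_, rfl⟩
  have hw1 : w * n ≤ X.card := by rw [hw]; exact Nat.div_mul_le_self _ _
  have hw0 : 0 < w := by rw [hw]; exact Nat.div_pos hX hn
  have hw2 : X.card < n * (w + 1) := by rw [hw]; exact Nat.lt_mul_div_succ _ hn
  have hlt : ∀ (a : Fin n) (j : Fin w), a.val * w + j.val < X.card := by
    intro a j
    have h1 := a.isLt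
    have h2 := j.isLt
    calc a.val * w + j.val < a.val * w + w := by omega
      _ = (a.val + 1) * w := by ring
      _ ≤ n * w := Nat.mul_le_mul_right _ (by omega)
      _ = w * n := Nat.mul_comm _ _
      _ ≤ X.card := hw1
  let g : Fin n → Fin w → V := fun a j => (X.equivFin.symm ⟨a.val * w + j.val, hlt a j⟩ : V)
  have hg : ∀ a j b j', g a j = g b j' → a = b ∧ j = j' := by
    intro a j b j' h
    have h1 : (X.equivFin.symm ⟨a.val * w + j.val, hlt a j⟩) =
        (X.equivFin.symm ⟨b.val * w + j'.val, hlt b j'⟩) := Subtype.ext h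
    have h2 := X.equivFin.symm.injective h1
    have h3 : a.val * w + j.val = b.val * w + j'.val := by simpa using h2
    have hj := j.isLt
    have hj' := j'.isLt
    have h4 : a.val = b.val := by
      have e1 : (a.val * w + j.val) / w = a.val := by
        rw [Nat.mul_comm, Nat.mul_add_div hw0, Nat.div_eq_of_lt hj, Nat.add_zero]
      have e2 : (b.val * w + j'.val) / w = b.val := by
        rw [Nat.mul_comm, Nat.mul_add_div hw0, Nat.div_eq_of_lt hj', Nat.add_zero]
      rw [← e1, ← e2, h3]
    have h5 : j.val = j'.val := by rw [h4] at h3; omega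
    exact ⟨Fin.ext h4, Fin.ext h5⟩
  refine ⟨fun a => Finset.univ.image (g a), ?_, ?_, ?_⟩
  · intro a x hx
    rw [Finset.mem_image] at hx
    obtain ⟨j, _, rfl⟩ := hx
    exact (X.equivFin.symm ⟨a.val * w + j.val, hlt a j⟩).2
  · intro a b hab
    rw [Finset.disjoint_left]
    intro x hx hx'
    rw [Finset.mem_image] at hx hx'
    obtain ⟨j, _, rfl⟩ := hx
    obtain ⟨j', _, h⟩ := hx'
    exact hab (hg _ _ _ _ h.symm).1
  · intro a
    rw [Finset.card_image_of_injective _ (fun j j' h => (hg _ _ _ _ h).2), Finset.card_univ,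
      Fintype.card_fin]
    have h1 : X.card ≤ 2 * n * w := by
      have : n * (w + 1) ≤ 2 * n * w := by nlinarith
      omega
    exact_mod_cast h1

/-- splitting a set of indices into consecutive blocks -/
lemma exists_blocks (m b : ℕ) (𝒜 : Finset ℕ) (hA : 𝒜.card = m * b) :
    ∃ blk : ℕ → Finset ℕ, (∀ j < m, blk j ⊆ 𝒜 ∧ (blk j).card = b) ∧
      ∀ j j', j < j' → j' < m → ∀ i ∈ blk j, ∀ i' ∈ blk j', i < i' := by
  let o := 𝒜.orderEmbOfFin hA
  have hlt : ∀ (j : ℕ) (hj : j < m) (x : Fin b), j * b + x.val < m * b := by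
    intro j hj x
    calc j * b + x.val < j * b + b := by have := x.isLt; omega
      _ = (j + 1) * b := by ring
      _ ≤ m * b := Nat.mul_le_mul_right _ (by omega)
  refine ⟨fun j => if hj : j < m then Finset.univ.image (fun x : Fin b => o ⟨j * b + x.val, hlt j hj x⟩)
    else ∅, ?_, ?_⟩
  · intro j hj
    simp only [hj, dif_pos]
    constructor
    · intro x hx
      rw [Finset.mem_image] at hx
      obtain ⟨y, _, rfl⟩ := hx
      exact Finset.orderEmbOfFin_mem _ _ _
    · rw [Finset.card_image_of_injective, Finset.card_univ, Fintype.card_fin]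
      intro x y hxy
      have := o.injective hxy
      rw [Fin.mk.injEq] at this
      exact Fin.ext (by omega)
  · intro j j' hjj' hj' i hi i' hi'
    have hj : j < m := by omega
    simp only [hj, hj', dif_pos, Finset.mem_image, Finset.mem_univ, true_and] at hi hi'
    obtain ⟨x, rfl⟩ := hi
    obtain ⟨y, rfl⟩ := hi'
    apply o.strictMono
    rw [Fin.mk_lt_mk]
    calc j * b + x.val < j * b + b := by have := x.isLt; omega
      _ = (j + 1) * b := by ring
      _ ≤ j' * b := Nat.mul_le_mul_right _ (by omega)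
      _ ≤ j' * b + y.val := Nat.le_add_right _ _

/-- The rank argument. -/
theorem rank_argument (n m h : ℕ) (hn : 0 < n) (hm : 0 < m) (c : V → V → ℕ) (red : V → V → Prop)
    (r : Fin n → Fin n → ℕ) (hr : ∀ a b, r a b < m) (τ κ s : ℝ) (hτ : 0 < τ) (hτ1 : τ ≤ 1)
    (hκ : 0 < κ) (hs : 1 ≤ s)
    (hτκ : ∀ k < h, (((m * (2 * m) ^ k : ℕ) : ℝ) * 2 ^ k * m) * τ ≤ κ / 2)
    (hred : ¬ ∃ v : Fin n → V, Function.Injective v ∧ (∀ a b, a < b → red (v a) (v b)) ∧
      ∀ a b a' b', a < b → a' < b' → r a b < r a' b' → c (v a) (v b) < c (v a') (v b')) :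
    ∀ k ≤ h, ∀ (X : Finset V) (𝒜 : Finset ℕ), 𝒜.card = m * (2 * m) ^ k →
      s * (4 * n ^ 2 / τ ^ n) ^ k ≤ X.card → (∀ i ∈ 𝒜, ¬ Str c red m κ s i k X) → False := by
  have hnR : (1 : ℝ) ≤ n := by exact_mod_cast hn
  have hτn : 0 < τ ^ n := pow_pos hτ n
  have hτn1 : τ ^ n ≤ 1 := pow_le_one₀ hτ.le hτ1
  have hQ : (1 : ℝ) ≤ 4 * n ^ 2 / τ ^ n := by
    rw [le_div_iff₀ hτn]
    nlinarith
  intro k
  induction k with
  | zero =>
    intro _ X 𝒜 hA hX hstr
    rw [pow_zero, mul_one] at hA
    rw [pow_zero, mul_one] at hX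
    obtain ⟨i, hi⟩ : 𝒜.Nonempty := by
      rw [← Finset.card_pos, hA]; exact hm
    apply hstr i hi
    refine ⟨[X], rfl, ?_, List.pairwise_singleton _ _⟩
    intro Y hY
    rw [List.mem_singleton] at hY
    subst hY
    exact ⟨subset_rfl, hX⟩
  | succ k ih =>
    intro hk X 𝒜 hA hX hstr
    have hXbig : (4 * (n : ℝ) ^ 2) ≤ X.card := by
      have h1 : 4 * (n : ℝ) ^ 2 / τ ^ n ≤ (4 * n ^ 2 / τ ^ n) ^ (k + 1) := by
        rw [pow_succ]
        exact le_mul_of_one_le_left (by positivity) (one_le_pow₀ hQ)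
      have h2 : 4 * (n : ℝ) ^ 2 ≤ 4 * n ^ 2 / τ ^ n := by
        rw [le_div_iff₀ hτn]
        exact mul_le_of_le_one_right (by positivity) hτn1
      calc 4 * (n : ℝ) ^ 2 ≤ (4 * n ^ 2 / τ ^ n) ^ (k + 1) := h2.trans h1
        _ ≤ s * (4 * n ^ 2 / τ ^ n) ^ (k + 1) := le_mul_of_one_le_left (by positivity) hs
        _ ≤ _ := hX
    have hXn : n ≤ X.card := by
      have : (n : ℝ) ≤ X.card := by nlinarith
      exact_mod_cast this
    obtain ⟨P, hP1, hP2, hP3⟩ := exists_parts n hn X hXn
    obtain ⟨blk, hblk1, hblk2⟩ := exists_blocks m ((2 * m) ^ (k + 1)) 𝒜 hA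
    have hPne : ∀ a, (P a).Nonempty := by
      intro a
      rw [← Finset.card_pos]
      have h1 := hP3 a
      have h2 : (0 : ℝ) < X.card := by nlinarith
      by_contra h0
      have : (P a).card = 0 := by omega
      rw [this] at h1
      simp at h1
      rw [h1] at h2
      simp at h2
    rcases transversal_or_sparse τ hτ hτ1 n n le_rfl P
      (fun a b x y => red x y ∧ ∃ i ∈ blk (r a b), ∃ q < m, c x y = i * m + q) hPne with
      ⟨v, hv1, hv2⟩ | ⟨a, b, hab, A, B, hAP, hBP, hA', hB', hdeg⟩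
    · apply hred
      refine ⟨v, ?_, fun a b hab => (hv2 a b hab).1, ?_⟩
      · intro a b hab
        by_contra hne
        exact (Finset.disjoint_left.1 (hP2 a b hne)) (hv1 a) (hab ▸ hv1 b)
      · intro a b a' b' hab hab' hrr
        obtain ⟨_, i, hi, q, hq, h1⟩ := hv2 a b hab
        obtain ⟨_, i', hi', q', hq', h1'⟩ := hv2 a' b' hab'
        have hii := hblk2 _ _ hrr (hr a' b') i hi i' hi'
        rw [h1, h1']
        calc i * m + q < i * m + m := by omega
          _ = (i + 1) * m := by ring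
          _ ≤ i' * m := Nat.mul_le_mul_right _ hii
          _ ≤ i' * m + q' := Nat.le_add_right _ _
    · have hAX := hAP.trans (hP1 a)
      have hBX := hBP.trans (hP1 b)
      have hABd : Disjoint A B := Finset.disjoint_of_subset_left hAP
        (Finset.disjoint_of_subset_right hBP (hP2 a b hab.ne))
      obtain ⟨hblkA, hblkc⟩ := hblk1 (r a b) (hr a b)
      have hdeg2 : ∀ v ∈ A, ((B.filter (fun y => red v y ∧ ∃ i ∈ blk (r a b), ∃ q < m,
          c v y = i * m + q)).card : ℝ) < τ * B.card := by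
        intro v hv
        convert hdeg v hv
      have hdeg' : ∀ i ∈ blk (r a b), ∀ q < m, ∀ v ∈ A,
          ((B.filter (fun y => c v y = i * m + q ∧ red v y)).card : ℝ) < τ * B.card := by
        intro i hi q hq v hv
        refine lt_of_le_of_lt ?_ (hdeg2 v hv)
        refine Nat.cast_le.2 (Finset.card_le_card ?_)
        intro y hy
        rw [Finset.mem_filter] at hy ⊢
        exact ⟨hy.1, hy.2.2, i, hi, q, hq, hy.2.1⟩
      -- size bounds
      have hQpos : 0 < 4 * (n : ℝ) ^ 2 / τ ^ n := by positivity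
      have hXQ : s * (4 * n ^ 2 / τ ^ n) ^ k ≤ X.card * (τ ^ n / (4 * n ^ 2)) := by
        have e1 : s * (4 * n ^ 2 / τ ^ n) ^ (k + 1) * (τ ^ n / (4 * (n : ℝ) ^ 2)) =
            s * (4 * n ^ 2 / τ ^ n) ^ k := by
          rw [pow_succ]
          field_simp
        rw [← e1]
        exact mul_le_mul_of_nonneg_right hX (by positivity)
      have hAbig : s * (4 * n ^ 2 / τ ^ n) ^ k ≤ A.card := by
        refine hXQ.trans ?_
        have h1 := hP3 a
        rw [← mul_div_assoc, div_le_iff₀ (by positivity)]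
        have h2 : (X.card : ℝ) * τ ^ n ≤ 2 * n * (τ ^ n * (P a).card) := by
          have := mul_le_mul_of_nonneg_right h1 hτn.le
          linarith
        have h3 : 2 * (n : ℝ) * (τ ^ n * (P a).card) ≤ 2 * n * (n * A.card) :=
          mul_le_mul_of_nonneg_left hA' (by positivity)
        have h4 : (0 : ℝ) ≤ A.card := Nat.cast_nonneg _
        nlinarith [mul_nonneg h4 (sq_nonneg (n : ℝ))]
      have hBbig : s * (4 * n ^ 2 / τ ^ n) ^ k ≤ B.card / 2 := by
        refine hXQ.trans ?_
        have h1 := hP3 b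
        rw [← mul_div_assoc, div_le_iff₀ (by positivity)]
        have h2 : (X.card : ℝ) * τ ^ n ≤ 2 * n * (τ ^ n * (P b).card) := by
          have := mul_le_mul_of_nonneg_right h1 hτn.le
          linarith
        have h3 : 2 * (n : ℝ) * (τ ^ n * (P b).card) ≤ 2 * n * B.card :=
          mul_le_mul_of_nonneg_left hB' (by positivity)
        have h4 : (0 : ℝ) ≤ B.card := Nat.cast_nonneg _
        have h5 : (n : ℝ) * B.card ≤ n ^ 2 * B.card := by
          apply mul_le_mul_of_nonneg_right _ h4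
          nlinarith
        nlinarith
      have hsplit : ((blk (r a b)).filter (fun i => ¬ Str c red m κ s i k A)).card +
          ((blk (r a b)).filter (fun i => Str c red m κ s i k A)).card =
          2 * (m * (2 * m) ^ k) := by
        have := Finset.card_filter_add_card_filter_not (s := blk (r a b))
          (fun i => Str c red m κ s i k A)
        rw [hblkc] at this
        rw [Nat.add_comm, this, pow_succ]
        ring
      by_cases hcase : m * (2 * m) ^ k ≤
          ((blk (r a b)).filter (fun i => ¬ Str c red m κ s i k A)).card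
      · obtain ⟨𝒜', hA'sub, hA'card⟩ := Finset.exists_subset_card_eq hcase
        exact ih (by omega) A 𝒜' hA'card hAbig (fun i hi => (Finset.mem_filter.1 (hA'sub hi)).2)
      · have hcase' : m * (2 * m) ^ k ≤
            ((blk (r a b)).filter (fun i => Str c red m κ s i k A)).card := by omega
        obtain ⟨𝒜', hA'sub, hA'card⟩ := Finset.exists_subset_card_eq hcase'
        obtain ⟨B', hB'B, hB'c, hB'str⟩ := combine c red m τ κ s hκ (by linarith) k X A B hAX hBX
          hABd 𝒜' (by rw [hA'card]; exact hτκ k (by omega))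
          (fun i hi => (Finset.mem_filter.1 (hA'sub hi)).2)
          (fun i hi => hdeg' i (Finset.mem_filter.1 (hA'sub hi)).1)
        refine ih (by omega) B' 𝒜' hA'card ?_ ?_
        · refine hBbig.trans ?_
          linarith
        · intro i hi hi2
          exact hstr i (hblkA (Finset.mem_filter.1 (hA'sub hi)).1) (hB'str i hi hi2)

end Pool.Agent.H79.EO
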