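import Pool.Agent.H79.EOPart2

set_option autoImplicit false

namespace Pool.Agent.H79.EO

open Finset Classical

variable {V : Type*} [Fintype V]

lemma low_bound (c : V → V → ℕ) (Y Y0 : Finset V) (ℓ : ℕ) (L N η : ℝ) (hL : 0 < L) (hη : 0 < η)
    (H1 : ∑ y : V, (((Y.filter (fun b => c y b = ℓ)).card : ℝ) - Y.card / L) ^ 2 ≤ Y.card * N) :
    ((Y0.filter (fun v => ((Y.filter (fun b => c v b = ℓ)).card : ℝ) <
      (1 - η) * (Y.card / L))).card : ℝ) * (η * (Y.card / L)) ^ 2 ≤ Y.card * N := by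
  calc ((Y0.filter (fun v => ((Y.filter (fun b => c v b = ℓ)).card : ℝ) <
        (1 - η) * (Y.card / L))).card : ℝ) * (η * (Y.card / L)) ^ 2
      = ∑ _v ∈ Y0.filter (fun v => ((Y.filter (fun b => c v b = ℓ)).card : ℝ) <
        (1 - η) * (Y.card / L)), (η * ((Y.card : ℝ) / L)) ^ 2 := by
          rw [Finset.sum_const, nsmul_eq_mul]
    _ ≤ ∑ v ∈ Y0.filter (fun v => ((Y.filter (fun b => c v b = ℓ)).card : ℝ) <
        (1 - η) * (Y.card / L)), (((Y.filter (fun b => c v b = ℓ)).card : ℝ) - Y.card / L) ^ 2 := by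
          apply Finset.sum_le_sum
          intro v hv
          rw [Finset.mem_filter] at hv
          have h1 := hv.2
          have h2 : 0 ≤ η * ((Y.card : ℝ) / L) := by positivity
          have h3 : η * ((Y.card : ℝ) / L) ≤
              Y.card / L - ((Y.filter (fun b => c v b = ℓ)).card : ℝ) := by linarith
          have h4 := pow_le_pow_left₀ h2 h3 2
          nlinarith
    _ ≤ ∑ v : V, (((Y.filter (fun b => c v b = ℓ)).card : ℝ) - Y.card / L) ^ 2 :=
          Finset.sum_le_sum_of_subset_of_nonneg (Finset.subset_univ _) (fun _ _ _ => sq_nonneg _)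
    _ ≤ _ := H1

omit [Fintype V] in
lemma high_bound (c : V → V → ℕ) (red : V → V → Prop) (Y Y0 : Finset V) (ℓ : ℕ) (x : ℝ) :
    ((Y0.filter (fun v => x < ((Y.filter (fun b => c v b = ℓ ∧ red v b)).card : ℝ))).card : ℝ) * x
      ≤ cnt c red ℓ Y0 Y := by
  rw [cnt_eq_left]
  push_cast
  calc ((Y0.filter (fun v => x < ((Y.filter (fun b => c v b = ℓ ∧ red v b)).card : ℝ))).card : ℝ) * x
      = ∑ _v ∈ Y0.filter (fun v => x < ((Y.filter (fun b => c v b = ℓ ∧ red v b)).card : ℝ)), x := by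
        rw [Finset.sum_const, nsmul_eq_mul]
    _ ≤ ∑ v ∈ Y0.filter (fun v => x < ((Y.filter (fun b => c v b = ℓ ∧ red v b)).card : ℝ)),
        ((Y.filter (fun b => c v b = ℓ ∧ red v b)).card : ℝ) :=
        Finset.sum_le_sum (fun v hv => (Finset.mem_filter.1 hv).2.le)
    _ ≤ _ := Finset.sum_le_sum_of_subset_of_nonneg (Finset.filter_subset _ _)
        (fun _ _ _ => Nat.cast_nonneg _)

/-- number of red pairs with label `ℓ` between `Ya` and `Yb` with the right labels to `v` -/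
noncomputable def cntv (c : V → V → ℕ) (red : V → V → Prop) (ℓ ℓa ℓb : ℕ) (Ya Yb : Finset V)
    (v : V) : ℕ :=
  ((Ya ×ˢ Yb).filter (fun p => (c p.1 p.2 = ℓ ∧ red p.1 p.2) ∧ c v p.1 = ℓa ∧ c v p.2 = ℓb)).card

lemma codeg_sum (c : V → V → ℕ) (red : V → V → Prop) (Ya Yb Y0 : Finset V) (ℓ ℓa ℓb : ℕ)
    (L N η : ℝ) (hL : 0 < L) (hη : 0 < η) (hY0 : Y0.Nonempty)
    (H2 : ∑ x : V, ∑ y : V, (((Y0.filter (fun b => c b x = ℓa ∧ c b y = ℓb)).card : ℝ) -
      Y0.card / L ^ 2) ^ 2 ≤ Y0.card * N ^ 2) :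
    ∑ v ∈ Y0, (cntv c red ℓ ℓa ℓb Ya Yb v : ℝ) ≤
      (1 + η) * (Y0.card / L ^ 2) * cnt c red ℓ Ya Yb + N ^ 2 * L ^ 2 / (4 * η) := by
  have hY0' : (0 : ℝ) < Y0.card := by exact_mod_cast Finset.card_pos.2 hY0
  set μ : ℝ := Y0.card / L ^ 2 with hμ
  have hμ0 : 0 < μ := by positivity
  set D := (Ya ×ˢ Yb).filter (fun p => c p.1 p.2 = ℓ ∧ red p.1 p.2) with hD
  have e1 : ∑ v ∈ Y0, (cntv c red ℓ ℓa ℓb Ya Yb v : ℝ) =
      ∑ p ∈ D, ((Y0.filter (fun b => c b p.1 = ℓa ∧ c b p.2 = ℓb)).card : ℝ) := by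
    have h1 : ∀ v, (cntv c red ℓ ℓa ℓb Ya Yb v : ℝ) =
        ∑ p ∈ D, if (c v p.1 = ℓa ∧ c v p.2 = ℓb) then (1 : ℝ) else 0 := by
      intro v
      unfold cntv
      rw [← Finset.filter_filter, Finset.card_filter]
      push_cast
      rfl
    simp only [h1]
    rw [Finset.sum_comm]
    apply Finset.sum_congr rfl
    intro p _
    rw [Finset.card_filter]
    push_cast
    rfl
  rw [e1]
  have e2 : ∀ p ∈ D, ((Y0.filter (fun b => c b p.1 = ℓa ∧ c b p.2 = ℓb)).card : ℝ) ≤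
      (1 + η) * μ + (((Y0.filter (fun b => c b p.1 = ℓa ∧ c b p.2 = ℓb)).card : ℝ) - μ) ^ 2 /
        (4 * η * μ) := by
    intro p _
    set z : ℝ := ((Y0.filter (fun b => c b p.1 = ℓa ∧ c b p.2 = ℓb)).card : ℝ)
    have h1 : 0 < 4 * η * μ := by positivity
    have h2 : z - μ - η * μ ≤ (z - μ) ^ 2 / (4 * η * μ) := by
      rw [le_div_iff₀ h1]
      nlinarith [sq_nonneg (z - μ - 2 * (η * μ))]
    linarith
  calc ∑ p ∈ D, ((Y0.filter (fun b => c b p.1 = ℓa ∧ c b p.2 = ℓb)).card : ℝ)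
      ≤ ∑ p ∈ D, ((1 + η) * μ + (((Y0.filter (fun b => c b p.1 = ℓa ∧ c b p.2 = ℓb)).card : ℝ)
        - μ) ^ 2 / (4 * η * μ)) := Finset.sum_le_sum e2
    _ = (1 + η) * μ * D.card + (∑ p ∈ D, (((Y0.filter (fun b => c b p.1 = ℓa ∧
        c b p.2 = ℓb)).card : ℝ) - μ) ^ 2) / (4 * η * μ) := by
        rw [Finset.sum_add_distrib, Finset.sum_const, nsmul_eq_mul, Finset.sum_div]
        ring
    _ ≤ (1 + η) * μ * D.card + (Y0.card * N ^ 2) / (4 * η * μ) := by
        gcongr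
        calc ∑ p ∈ D, (((Y0.filter (fun b => c b p.1 = ℓa ∧ c b p.2 = ℓb)).card : ℝ) - μ) ^ 2
            ≤ ∑ p : V × V, (((Y0.filter (fun b => c b p.1 = ℓa ∧ c b p.2 = ℓb)).card : ℝ) - μ) ^ 2 :=
              Finset.sum_le_sum_of_subset_of_nonneg (Finset.subset_univ _)
                (fun _ _ _ => sq_nonneg _)
          _ = ∑ x : V, ∑ y : V, (((Y0.filter (fun b => c b x = ℓa ∧ c b y = ℓb)).card : ℝ) -
              μ) ^ 2 := by rw [Fintype.sum_prod_type]
          _ ≤ _ := H2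
    _ = (1 + η) * μ * D.card + N ^ 2 * L ^ 2 / (4 * η) := by
        congr 1
        rw [hμ]
        field_simp
    _ = (1 + η) * μ * cnt c red ℓ Ya Yb + N ^ 2 * L ^ 2 / (4 * η) := rfl

/-- the potential -/
noncomputable def Pot (c : V → V → ℕ) (red : V → V → Prop) (L : ℝ) {k : ℕ} (Y : Fin k → Finset V)
    (lam : Fin k → Fin k → ℕ) : ℝ :=
  ∑ a, ∑ b, if a < b then L * (cnt c red (lam a b) (Y a) (Y b) : ℝ) / ((Y a).card * (Y b).card)
    else 0

omit [Fintype V] in
lemma pot_succ (c : V → V → ℕ) (red : V → V → Prop) (L : ℝ) {k : ℕ} (Y : Fin (k + 1) → Finset V)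
    (lam : Fin (k + 1) → Fin (k + 1) → ℕ) :
    Pot c red L Y lam = (∑ b : Fin k, L * (cnt c red (lam 0 b.succ) (Y 0) (Y b.succ) : ℝ) /
      ((Y 0).card * (Y b.succ).card)) + Pot c red L (fun b : Fin k => Y b.succ)
        (fun a b => lam a.succ b.succ) := by
  unfold Pot
  rw [Fin.sum_univ_succ]
  congr 1
  · rw [Fin.sum_univ_succ]
    simp
  · apply Finset.sum_congr rfl
    intro a _
    rw [Fin.sum_univ_succ]
    simp

/-- the set of good vertices is large -/
lemma good_large (n : ℕ) (hn : 2 ≤ n) (c : V → V → ℕ) (red : V → V → Prop) (Lb : ℕ)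
    (L N s0 : ℝ) (hL : 1 ≤ L) (hs0 : 0 < s0)
    (H1 : ∀ (Y : Finset V) (ℓ : ℕ), ℓ < Lb →
      ∑ y : V, (((Y.filter (fun b => c y b = ℓ)).card : ℝ) - Y.card / L) ^ 2 ≤ Y.card * N)
    (hs1 : 512 * (n : ℝ) ^ 4 * (N * L ^ 2) ≤ s0 ^ 2)
    (k : ℕ) (hk : k + 1 ≤ n) (Y : Fin (k + 1) → Finset V) (lam : Fin (k + 1) → Fin (k + 1) → ℕ)
    (hlam : ∀ a b, lam a b < Lb) (hY : ∀ a, s0 ≤ ((Y a).card : ℝ))
    (hpot : (∑ b : Fin k, L * (cnt c red (lam 0 b.succ) (Y 0) (Y b.succ) : ℝ) /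
      ((Y 0).card * (Y b.succ).card)) ≤ 1 / (64 * (n : ℝ) ^ 2)) :
    (1 - 1 / (4 * (n : ℝ))) * (Y 0).card ≤ (((Y 0).filter (fun v => ∀ b : Fin k,
      (1 - 1 / (8 * (n : ℝ))) * ((Y b.succ).card / L) ≤
        (((Y b.succ).filter (fun y => c v y = lam 0 b.succ)).card : ℝ) ∧
      (((Y b.succ).filter (fun y => c v y = lam 0 b.succ ∧ red v y)).card : ℝ) ≤
        1 / (8 * (n : ℝ)) * ((Y b.succ).card / L))).card : ℝ) := by
  have hn' : (2 : ℝ) ≤ n := by exact_mod_cast hn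
  have hn0 : (0 : ℝ) < n := by linarith
  have hL0 : 0 < L := by linarith
  set η : ℝ := 1 / (8 * (n : ℝ)) with hη
  have hη0 : 0 < η := by positivity
  set G := (Y 0).filter (fun v => ∀ b : Fin k,
      (1 - η) * ((Y b.succ).card / L) ≤
        (((Y b.succ).filter (fun y => c v y = lam 0 b.succ)).card : ℝ) ∧
      (((Y b.succ).filter (fun y => c v y = lam 0 b.succ ∧ red v y)).card : ℝ) ≤
        η * ((Y b.succ).card / L)) with hG
  set low : Fin k → Finset V := fun b => (Y 0).filter (fun v =>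
      (((Y b.succ).filter (fun y => c v y = lam 0 b.succ)).card : ℝ) <
        (1 - η) * ((Y b.succ).card / L)) with hlow
  set high : Fin k → Finset V := fun b => (Y 0).filter (fun v =>
      η * ((Y b.succ).card / L) <
      (((Y b.succ).filter (fun y => c v y = lam 0 b.succ ∧ red v y)).card : ℝ)) with hhigh
  have hcov : Y 0 ⊆ G ∪ Finset.univ.biUnion (fun b => low b ∪ high b) := by
    intro v hv
    by_cases hvG : v ∈ G
    · exact Finset.mem_union_left _ hvG
    · apply Finset.mem_union_right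
      rw [hG, Finset.mem_filter] at hvG
      push Not at hvG
      obtain ⟨b, hb⟩ := hvG hv
      rw [Finset.mem_biUnion]
      refine ⟨b, Finset.mem_univ _, ?_⟩
      rw [Finset.mem_union]
      by_cases h1 : (((Y b.succ).filter (fun y => c v y = lam 0 b.succ)).card : ℝ) <
        (1 - η) * ((Y b.succ).card / L)
      · left; exact Finset.mem_filter.2 ⟨hv, h1⟩
      · right; exact Finset.mem_filter.2 ⟨hv, hb (not_lt.1 h1)⟩
  have hcard : ((Y 0).card : ℝ) ≤ G.card + ∑ b : Fin k, (((low b).card : ℝ) + (high b).card) := by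
    have h1 : (Y 0).card ≤ G.card + ∑ b : Fin k, ((low b).card + (high b).card) := by
      refine (Finset.card_le_card hcov).trans ((Finset.card_union_le _ _).trans ?_)
      apply Nat.add_le_add_left
      exact Finset.card_biUnion_le.trans (Finset.sum_le_sum (fun b _ => Finset.card_union_le _ _))
    exact_mod_cast h1
  have hY0 : 0 < ((Y 0).card : ℝ) := lt_of_lt_of_le hs0 (hY 0)
  have hlowb : ∀ b, ((low b).card : ℝ) ≤ 1 / (8 * (n : ℝ) ^ 2) * (Y 0).card := by
    intro b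
    have h1 := low_bound c (Y b.succ) (Y 0) (lam 0 b.succ) L N η hL0 hη0 (H1 _ _ (hlam _ _))
    have hyb : 0 < ((Y b.succ).card : ℝ) := lt_of_lt_of_le hs0 (hY _)
    have h2 : ((low b).card : ℝ) * (η ^ 2 * (Y b.succ).card / L ^ 2) ≤ N := by
      have e : ((low b).card : ℝ) * (η * ((Y b.succ).card / L)) ^ 2 =
          (Y b.succ).card * (((low b).card : ℝ) * (η ^ 2 * (Y b.succ).card / L ^ 2)) := by
        field_simp
      rw [e] at h1
      exact le_of_mul_le_mul_left h1 hyb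
    have h3 : ((low b).card : ℝ) * (Y b.succ).card ≤ 64 * n ^ 2 * (N * L ^ 2) := by
      have e : ((low b).card : ℝ) * (η ^ 2 * (Y b.succ).card / L ^ 2) =
          (((low b).card : ℝ) * (Y b.succ).card) / (64 * n ^ 2 * L ^ 2) := by
        rw [hη]; field_simp; ring
      rw [e, div_le_iff₀ (by positivity)] at h2
      linarith
    have h4 : 8 * (n : ℝ) ^ 2 * (((low b).card : ℝ) * (Y b.succ).card) ≤
        (Y 0).card * (Y b.succ).card := by
      calc 8 * (n : ℝ) ^ 2 * (((low b).card : ℝ) * (Y b.succ).card)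
          ≤ 8 * (n : ℝ) ^ 2 * (64 * n ^ 2 * (N * L ^ 2)) := by gcongr
        _ = 512 * (n : ℝ) ^ 4 * (N * L ^ 2) := by ring
        _ ≤ s0 ^ 2 := hs1
        _ ≤ (Y 0).card * (Y b.succ).card := by
            rw [pow_two]
            exact mul_le_mul (hY 0) (hY _) hs0.le hY0.le
    have h5 : 8 * (n : ℝ) ^ 2 * ((low b).card : ℝ) ≤ (Y 0).card := by
      have : (Y b.succ).card * (8 * (n : ℝ) ^ 2 * ((low b).card : ℝ)) ≤
          (Y b.succ).card * ((Y 0).card : ℝ) := by linarith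
      exact le_of_mul_le_mul_left this hyb
    rw [div_mul_eq_mul_div, le_div_iff₀ (by positivity)]
    linarith
  have hhighb : ∀ b, ((high b).card : ℝ) ≤ 8 * n * ((Y 0).card *
      (L * (cnt c red (lam 0 b.succ) (Y 0) (Y b.succ) : ℝ) /
      ((Y 0).card * (Y b.succ).card))) := by
    intro b
    have h1 := high_bound c red (Y b.succ) (Y 0) (lam 0 b.succ) (η * ((Y b.succ).card / L))
    have hyb : 0 < ((Y b.succ).card : ℝ) := lt_of_lt_of_le hs0 (hY _)
    have e : ((high b).card : ℝ) * (η * ((Y b.succ).card / L)) =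
        ((high b).card : ℝ) * ((Y b.succ).card / (8 * n * L)) := by
      rw [hη]; field_simp
    rw [e] at h1
    have h2 : ((high b).card : ℝ) ≤ cnt c red (lam 0 b.succ) (Y 0) (Y b.succ) /
        ((Y b.succ).card / (8 * n * L)) := by
      rw [le_div_iff₀ (by positivity)]; exact h1
    refine h2.trans (le_of_eq ?_)
    field_simp
  have hsum : ∑ b : Fin k, (((low b).card : ℝ) + (high b).card) ≤ 1 / (4 * n) * (Y 0).card := by
    rw [Finset.sum_add_distrib]
    have h1 : ∑ b : Fin k, ((low b).card : ℝ) ≤ 1 / (8 * n) * (Y 0).card := by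
      calc ∑ b : Fin k, ((low b).card : ℝ) ≤ ∑ _b : Fin k, 1 / (8 * (n : ℝ) ^ 2) * (Y 0).card :=
            Finset.sum_le_sum (fun b _ => hlowb b)
        _ = k * (1 / (8 * (n : ℝ) ^ 2) * (Y 0).card) := by
            rw [Finset.sum_const, Finset.card_univ, Fintype.card_fin, nsmul_eq_mul]
        _ ≤ n * (1 / (8 * (n : ℝ) ^ 2) * (Y 0).card) := by
            apply mul_le_mul_of_nonneg_right _ (by positivity)
            exact_mod_cast (by omega : k ≤ n)
        _ = 1 / (8 * n) * (Y 0).card := by field_simp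
    have h2 : ∑ b : Fin k, ((high b).card : ℝ) ≤ 1 / (8 * n) * (Y 0).card := by
      calc ∑ b : Fin k, ((high b).card : ℝ) ≤ ∑ b : Fin k, 8 * n * ((Y 0).card *
            (L * (cnt c red (lam 0 b.succ) (Y 0) (Y b.succ) : ℝ) /
            ((Y 0).card * (Y b.succ).card))) := Finset.sum_le_sum (fun b _ => hhighb b)
        _ = 8 * n * ((Y 0).card * ∑ b : Fin k,
            (L * (cnt c red (lam 0 b.succ) (Y 0) (Y b.succ) : ℝ) /
            ((Y 0).card * (Y b.succ).card))) := by rw [← Finset.mul_sum, ← Finset.mul_sum]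
        _ ≤ 8 * n * ((Y 0).card * (1 / (64 * (n : ℝ) ^ 2))) := by gcongr
        _ = 1 / (8 * n) * (Y 0).card := by field_simp; ring
    calc ∑ b : Fin k, ((low b).card : ℝ) + ∑ b : Fin k, ((high b).card : ℝ)
        ≤ 1 / (8 * n) * (Y 0).card + 1 / (8 * n) * (Y 0).card := add_le_add h1 h2
      _ = 1 / (4 * n) * (Y 0).card := by field_simp; ring
  linarith

end Pool.Agent.H79.EO
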