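import Pool.Agent.H79.EOPart3

set_option autoImplicit false

namespace Pool.Agent.H79.EO

open Finset Classical

variable {V : Type*} [Fintype V]

/-- the potential after the choice of `v`, up to normalisation -/
noncomputable def Phi (c : V → V → ℕ) (red : V → V → Prop) (C : ℝ) {k : ℕ}
    (Y : Fin (k + 1) → Finset V) (lam : Fin (k + 1) → Fin (k + 1) → ℕ) (v : V) : ℝ :=
  ∑ a : Fin k, ∑ b : Fin k, if a < b then
    C * (cntv c red (lam a.succ b.succ) (lam 0 a.succ) (lam 0 b.succ) (Y a.succ) (Y b.succ) v : ℝ) /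
      ((Y a.succ).card * (Y b.succ).card) else 0

lemma phi_sum (n : ℕ) (hn : 2 ≤ n) (c : V → V → ℕ) (red : V → V → Prop) (Lb : ℕ)
    (L N s0 : ℝ) (hL : 1 ≤ L) (hs0 : 0 < s0)
    (H2 : ∀ (Y : Finset V) (ℓ ℓ' : ℕ), ℓ < Lb → ℓ' < Lb →
      ∑ x : V, ∑ y : V, (((Y.filter (fun b => c b x = ℓ ∧ c b y = ℓ')).card : ℝ) -
        Y.card / L ^ 2) ^ 2 ≤ Y.card * N ^ 2)
    (k : ℕ) (hk : k + 1 ≤ n) (Y : Fin (k + 1) → Finset V) (lam : Fin (k + 1) → Fin (k + 1) → ℕ)
    (hlam : ∀ a b, lam a b < Lb) (hY : ∀ a, s0 ≤ ((Y a).card : ℝ)) :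
    ∑ v ∈ Y 0, Phi c red (L ^ 3) Y lam v ≤
      (1 + 1 / (8 * (n : ℝ))) * (Y 0).card *
        Pot c red L (fun b : Fin k => Y b.succ) (fun a b => lam a.succ b.succ) +
      2 * n ^ 3 * L ^ 5 * N ^ 2 / s0 ^ 2 := by
  have hn' : (2 : ℝ) ≤ n := by exact_mod_cast hn
  have hn0 : (0 : ℝ) < n := by linarith
  have hL0 : 0 < L := by linarith
  have hY0 : 0 < ((Y 0).card : ℝ) := lt_of_lt_of_le hs0 (hY 0)
  have hY0ne : (Y 0).Nonempty := by
    rw [← Finset.card_pos]; exact_mod_cast hY0
  have hterm : ∀ a b : Fin k, ∑ v ∈ Y 0, (if a < b then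
      L ^ 3 * (cntv c red (lam a.succ b.succ) (lam 0 a.succ) (lam 0 b.succ) (Y a.succ)
        (Y b.succ) v : ℝ) / ((Y a.succ).card * (Y b.succ).card) else 0) ≤
      (1 + 1 / (8 * (n : ℝ))) * (Y 0).card * (if a < b then
        L * (cnt c red (lam a.succ b.succ) (Y a.succ) (Y b.succ) : ℝ) /
          ((Y a.succ).card * (Y b.succ).card) else 0) + 2 * n * L ^ 5 * N ^ 2 / s0 ^ 2 := by
    intro a b
    by_cases hab : a < b
    · simp only [hab, if_true]
      have hya : 0 < ((Y a.succ).card : ℝ) := lt_of_lt_of_le hs0 (hY _)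
      have hyb : 0 < ((Y b.succ).card : ℝ) := lt_of_lt_of_le hs0 (hY _)
      have h1 := codeg_sum c red (Y a.succ) (Y b.succ) (Y 0) (lam a.succ b.succ) (lam 0 a.succ)
        (lam 0 b.succ) L N (1 / (8 * (n : ℝ))) hL0 (by positivity) hY0ne
        (H2 _ _ _ (hlam _ _) (hlam _ _))
      calc ∑ v ∈ Y 0, L ^ 3 * (cntv c red (lam a.succ b.succ) (lam 0 a.succ) (lam 0 b.succ)
            (Y a.succ) (Y b.succ) v : ℝ) / ((Y a.succ).card * (Y b.succ).card)
          = L ^ 3 / ((Y a.succ).card * (Y b.succ).card) * ∑ v ∈ Y 0,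
            (cntv c red (lam a.succ b.succ) (lam 0 a.succ) (lam 0 b.succ)
              (Y a.succ) (Y b.succ) v : ℝ) := by
            rw [Finset.mul_sum]
            apply Finset.sum_congr rfl
            intro v _
            ring
        _ ≤ L ^ 3 / ((Y a.succ).card * (Y b.succ).card) *
            ((1 + 1 / (8 * (n : ℝ))) * ((Y 0).card / L ^ 2) *
              cnt c red (lam a.succ b.succ) (Y a.succ) (Y b.succ) +
              N ^ 2 * L ^ 2 / (4 * (1 / (8 * (n : ℝ))))) := by gcongr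
        _ = (1 + 1 / (8 * (n : ℝ))) * (Y 0).card *
            (L * (cnt c red (lam a.succ b.succ) (Y a.succ) (Y b.succ) : ℝ) /
              ((Y a.succ).card * (Y b.succ).card)) +
            2 * n * L ^ 5 * N ^ 2 / ((Y a.succ).card * (Y b.succ).card) := by
            field_simp
            ring
        _ ≤ _ := by
            have h2 : s0 ^ 2 ≤ (Y a.succ).card * (Y b.succ).card := by
              rw [pow_two]; exact mul_le_mul (hY _) (hY _) hs0.le hya.le
            gcongr
    · simp only [hab, if_false, Finset.sum_const_zero, mul_zero, zero_add]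
      positivity
  calc ∑ v ∈ Y 0, Phi c red (L ^ 3) Y lam v
      = ∑ a : Fin k, ∑ b : Fin k, ∑ v ∈ Y 0, (if a < b then
      L ^ 3 * (cntv c red (lam a.succ b.succ) (lam 0 a.succ) (lam 0 b.succ) (Y a.succ)
        (Y b.succ) v : ℝ) / ((Y a.succ).card * (Y b.succ).card) else 0) := by
        unfold Phi
        rw [Finset.sum_comm]
        apply Finset.sum_congr rfl
        intro a _
        rw [Finset.sum_comm]
    _ ≤ ∑ a : Fin k, ∑ b : Fin k, ((1 + 1 / (8 * (n : ℝ))) * (Y 0).card * (if a < b then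
        L * (cnt c red (lam a.succ b.succ) (Y a.succ) (Y b.succ) : ℝ) /
          ((Y a.succ).card * (Y b.succ).card) else 0) + 2 * n * L ^ 5 * N ^ 2 / s0 ^ 2) :=
        Finset.sum_le_sum (fun a _ => Finset.sum_le_sum (fun b _ => hterm a b))
    _ = (1 + 1 / (8 * (n : ℝ))) * (Y 0).card *
        Pot c red L (fun b : Fin k => Y b.succ) (fun a b => lam a.succ b.succ) +
        k * (k * (2 * n * L ^ 5 * N ^ 2 / s0 ^ 2)) := by
        simp only [Finset.sum_add_distrib, Finset.sum_const, Finset.card_univ, Fintype.card_fin,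
          nsmul_eq_mul, ← Finset.mul_sum]
        rfl
    _ ≤ _ := by
        have hkn : (k : ℝ) ≤ n := by exact_mod_cast (by omega : k ≤ n)
        have h1 : 0 ≤ 2 * (n : ℝ) * L ^ 5 * N ^ 2 / s0 ^ 2 := by positivity
        have h2 : (k : ℝ) * (k * (2 * n * L ^ 5 * N ^ 2 / s0 ^ 2)) ≤
            n * (n * (2 * n * L ^ 5 * N ^ 2 / s0 ^ 2)) := by gcongr
        have h3 : (n : ℝ) * (n * (2 * n * L ^ 5 * N ^ 2 / s0 ^ 2)) =
            2 * n ^ 3 * L ^ 5 * N ^ 2 / s0 ^ 2 := by ring
        linarith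

set_option maxHeartbeats 1600000 in
/-- The blue embedding: sets with few red pairs contain a transversal without red pairs. -/
theorem blue_embed (n : ℕ) (hn : 2 ≤ n) (c : V → V → ℕ) (red : V → V → Prop) (Lb : ℕ)
    (L N s0 ε0 : ℝ) (hL : 1 ≤ L) (hs0 : 0 < s0)
    (H1 : ∀ (Y : Finset V) (ℓ : ℕ), ℓ < Lb →
      ∑ y : V, (((Y.filter (fun b => c y b = ℓ)).card : ℝ) - Y.card / L) ^ 2 ≤ Y.card * N)
    (H2 : ∀ (Y : Finset V) (ℓ ℓ' : ℕ), ℓ < Lb → ℓ' < Lb →
      ∑ x : V, ∑ y : V, (((Y.filter (fun b => c b x = ℓ ∧ c b y = ℓ')).card : ℝ) -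
        Y.card / L ^ 2) ^ 2 ≤ Y.card * N ^ 2)
    (hs1 : 512 * (n : ℝ) ^ 4 * (N * L ^ 2) ≤ s0 ^ 2)
    (hs2 : 4 * (n : ℝ) ^ 3 * L ^ 5 * N ^ 2 ≤ ε0 * s0 ^ 3)
    (w : ℕ → ℝ) (hw0 : ∀ k, 0 ≤ w k)
    (hw1 : ∀ k < n, (1 + 2 / (n : ℝ)) * w (k + 1) + ε0 ≤ w k)
    (hw2 : ∀ k ≤ n, w k ≤ 1 / (64 * (n : ℝ) ^ 2)) :
    ∀ k ≤ n, ∀ (Y : Fin k → Finset V) (lam : Fin k → Fin k → ℕ), (∀ a b, lam a b < Lb) →
      (∀ a, s0 * (2 * L) ^ k ≤ ((Y a).card : ℝ)) → Pot c red L Y lam ≤ w k →
      ∃ v : Fin k → V, (∀ a, v a ∈ Y a) ∧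
        ∀ a b, a < b → c (v a) (v b) = lam a b ∧ ¬ red (v a) (v b) := by
  have hn' : (2 : ℝ) ≤ n := by exact_mod_cast hn
  have hn0 : (0 : ℝ) < n := by linarith
  have hL0 : 0 < L := by linarith
  intro k
  induction k with
  | zero =>
    intro _ Y lam _ _ _
    exact ⟨fun a => a.elim0, fun a => a.elim0, fun a => a.elim0⟩
  | succ k ih =>
    intro hk Y lam hlam hYbig hpot
    have hpow1 : ∀ j : ℕ, (1 : ℝ) ≤ (2 * L) ^ j := fun j => one_le_pow₀ (by linarith)
    have hY : ∀ a, s0 ≤ ((Y a).card : ℝ) := fun a =>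
      (le_mul_of_one_le_right hs0.le (hpow1 _)).trans (hYbig a)
    have hY0 : 0 < ((Y 0).card : ℝ) := lt_of_lt_of_le hs0 (hY 0)
    have hpos1 : 0 ≤ ∑ b : Fin k, L * (cnt c red (lam 0 b.succ) (Y 0) (Y b.succ) : ℝ) /
        ((Y 0).card * (Y b.succ).card) := by positivity
    have hpos2 : 0 ≤ Pot c red L (fun b : Fin k => Y b.succ) (fun a b => lam a.succ b.succ) := by
      unfold Pot
      refine Finset.sum_nonneg (fun a _ => Finset.sum_nonneg (fun b _ => ?_))
      split_ifs <;> positivity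
    rw [pot_succ] at hpot
    have hpot' : Pot c red L (fun b : Fin k => Y b.succ) (fun a b => lam a.succ b.succ) ≤
        w (k + 1) := by linarith
    have hgood := good_large n hn c red Lb L N s0 hL hs0 H1 hs1 k hk Y lam hlam hY
      (by have := hw2 (k + 1) hk; linarith)
    set G := (Y 0).filter (fun v => ∀ b : Fin k,
      (1 - 1 / (8 * (n : ℝ))) * ((Y b.succ).card / L) ≤
        (((Y b.succ).filter (fun y => c v y = lam 0 b.succ)).card : ℝ) ∧
      (((Y b.succ).filter (fun y => c v y = lam 0 b.succ ∧ red v y)).card : ℝ) ≤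
        1 / (8 * (n : ℝ)) * ((Y b.succ).card / L)) with hG
    have hphi := phi_sum n hn c red Lb L N s0 hL hs0 H2 k hk Y lam hlam hY
    -- `u = 1 / n`
    set u : ℝ := 1 / n with hu
    have hu0 : 0 < u := by positivity
    have hu1 : u ≤ 1 / 2 := by
      rw [hu]; exact one_div_le_one_div_of_le (by norm_num) hn'
    have e8 : 1 / (8 * (n : ℝ)) = u / 8 := by rw [hu]; field_simp
    have e4 : 1 / (4 * (n : ℝ)) = u / 4 := by rw [hu]; field_simp
    have e2 : 2 / (n : ℝ) = 2 * u := by rw [hu]; field_simp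
    have hb : 1 - 3 * u / 4 ≤ (1 - u / 4) ^ 3 := by
      have e : (1 - u / 4) ^ 3 - (1 - 3 * u / 4) = u ^ 2 * (12 - u) / 64 := by ring
      have h : 0 ≤ u ^ 2 * (12 - u) / 64 := by
        have : 0 ≤ 12 - u := by linarith
        positivity
      linarith
    have hq : 1 / 2 ≤ (1 - u / 4) ^ 3 := by linarith
    have hfac : 1 + u / 8 ≤ (1 - u / 4) ^ 3 * (1 + 2 * u) := by
      have h1 : (1 - 3 * u / 4) * (1 + 2 * u) ≤ (1 - u / 4) ^ 3 * (1 + 2 * u) :=
        mul_le_mul_of_nonneg_right hb (by linarith)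
      have h2 : (1 - 3 * u / 4) * (1 + 2 * u) = 1 + 5 * u / 4 - 3 / 2 * u * u := by ring
      have h3 : 3 / 2 * u * u ≤ 3 / 2 * u * (1 / 2) :=
        mul_le_mul_of_nonneg_left hu1 (by linarith)
      linarith
    have hq' : 0 < (1 - u / 4) ^ 2 := by
      have : 0 < 1 - u / 4 := by linarith
      positivity
    -- a good vertex with small potential
    have hex : ∃ v ∈ G, Phi c red (L ^ 3) Y lam v ≤ (1 - u / 4) ^ 2 * w k := by
      by_contra hcon
      push Not at hcon
      have h1 : (G.card : ℝ) * ((1 - u / 4) ^ 2 * w k) ≤ ∑ v ∈ G, Phi c red (L ^ 3) Y lam v := by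
        rw [← nsmul_eq_mul, ← Finset.sum_const]
        exact Finset.sum_le_sum (fun v hv => (hcon v hv).le)
      have hGpos : 0 < (G.card : ℝ) := by
        refine lt_of_lt_of_le ?_ hgood
        rw [e4]
        apply mul_pos _ hY0
        linarith
      have h1' : (G.card : ℝ) * ((1 - u / 4) ^ 2 * w k) < ∑ v ∈ G, Phi c red (L ^ 3) Y lam v := by
        rw [← nsmul_eq_mul, ← Finset.sum_const]
        apply Finset.sum_lt_sum_of_nonempty
        · rw [← Finset.card_pos]; exact_mod_cast hGpos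
        · exact hcon
      have hphi0 : ∀ v, 0 ≤ Phi c red (L ^ 3) Y lam v := by
        intro v
        unfold Phi
        refine Finset.sum_nonneg (fun a _ => Finset.sum_nonneg (fun b _ => ?_))
        split_ifs <;> positivity
      have h2 : ∑ v ∈ G, Phi c red (L ^ 3) Y lam v ≤ ∑ v ∈ Y 0, Phi c red (L ^ 3) Y lam v :=
        Finset.sum_le_sum_of_subset_of_nonneg (Finset.filter_subset _ _) (fun v _ _ => hphi0 v)
      have h3 : (1 - u / 4) * (Y 0).card * ((1 - u / 4) ^ 2 * w k) ≤
          (G.card : ℝ) * ((1 - u / 4) ^ 2 * w k) := by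
        apply mul_le_mul_of_nonneg_right _ (mul_nonneg hq'.le (hw0 k))
        rw [e4] at hgood; exact hgood
      have h4 : 2 * (n : ℝ) ^ 3 * L ^ 5 * N ^ 2 / s0 ^ 2 ≤ (1 / 2 * ε0) * (Y 0).card := by
        rw [div_le_iff₀ (by positivity)]
        have hε0 : 0 ≤ ε0 := by
          by_contra hneg
          push Not at hneg
          have h5 : 0 ≤ 4 * (n : ℝ) ^ 3 * L ^ 5 * N ^ 2 := by positivity
          have h6 : ε0 * s0 ^ 3 < 0 := mul_neg_of_neg_of_pos hneg (by positivity)
          linarith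
        calc 2 * (n : ℝ) ^ 3 * L ^ 5 * N ^ 2 = 1 / 2 * (4 * (n : ℝ) ^ 3 * L ^ 5 * N ^ 2) := by ring
          _ ≤ 1 / 2 * (ε0 * s0 ^ 3) := by linarith
          _ = 1 / 2 * ε0 * s0 * s0 ^ 2 := by ring
          _ ≤ 1 / 2 * ε0 * (Y 0).card * s0 ^ 2 := by
              have := hY 0
              gcongr
      rw [e8] at hphi
      have h5 : (1 + u / 8) * (Y 0).card *
          Pot c red L (fun b : Fin k => Y b.succ) (fun a b => lam a.succ b.succ) ≤
          (1 + u / 8) * (Y 0).card * w (k + 1) := by gcongr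
      have h6 := hw1 k (by omega)
      rw [e2] at h6
      have h7 : (Y 0).card * ((1 - u / 4) ^ 3 * w k) <
          (Y 0).card * ((1 + u / 8) * w (k + 1) + 1 / 2 * ε0) := by
        have : (Y 0).card * ((1 - u / 4) ^ 3 * w k) =
          (1 - u / 4) * (Y 0).card * ((1 - u / 4) ^ 2 * w k) := by ring
        rw [this]
        linarith
      have h8 := lt_of_mul_lt_mul_left h7 hY0.le
      have hε0 : 0 ≤ ε0 := by
        by_contra hneg
        push Not at hneg
        have h5 : 0 ≤ 4 * (n : ℝ) ^ 3 * L ^ 5 * N ^ 2 := by positivity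
        have h6 : ε0 * s0 ^ 3 < 0 := mul_neg_of_neg_of_pos hneg (by positivity)
        linarith
      have h9 : (1 - u / 4) ^ 3 * ((1 + 2 * u) * w (k + 1) + ε0) ≤ (1 - u / 4) ^ 3 * w k :=
        mul_le_mul_of_nonneg_left h6 (by linarith)
      have h10 : (1 + u / 8) * w (k + 1) ≤ (1 - u / 4) ^ 3 * (1 + 2 * u) * w (k + 1) :=
        mul_le_mul_of_nonneg_right hfac (hw0 _)
      have h11 : 1 / 2 * ε0 ≤ (1 - u / 4) ^ 3 * ε0 := mul_le_mul_of_nonneg_right hq hε0
      have h12 : (1 - u / 4) ^ 3 * ((1 + 2 * u) * w (k + 1) + ε0) =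
        (1 - u / 4) ^ 3 * (1 + 2 * u) * w (k + 1) + (1 - u / 4) ^ 3 * ε0 := by ring
      rw [h12] at h9
      linarith
    obtain ⟨v, hvG, hv⟩ := hex
    rw [hG, Finset.mem_filter] at hvG
    obtain ⟨hv0, hvb⟩ := hvG
    let Y' : Fin k → Finset V := fun b =>
      (Y b.succ).filter (fun y => c v y = lam 0 b.succ ∧ ¬ red v y)
    have hY'card : ∀ b, (1 - u / 4) * ((Y b.succ).card / L) ≤ ((Y' b).card : ℝ) := by
      intro b
      obtain ⟨h1, h2⟩ := hvb b
      have h3 : ((Y b.succ).filter (fun y => c v y = lam 0 b.succ)).card =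
          ((Y b.succ).filter (fun y => c v y = lam 0 b.succ ∧ red v y)).card + (Y' b).card := by
        rw [← Finset.card_filter_add_card_filter_not (s := (Y b.succ).filter
          (fun y => c v y = lam 0 b.succ)) (fun y => red v y), Finset.filter_filter,
          Finset.filter_filter]
      have h4 : (((Y b.succ).filter (fun y => c v y = lam 0 b.succ)).card : ℝ) =
          (((Y b.succ).filter (fun y => c v y = lam 0 b.succ ∧ red v y)).card : ℝ) +
          (Y' b).card := by exact_mod_cast h3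
      rw [e8] at h1 h2
      have h5 : (1 - u / 4) * (((Y b.succ).card : ℝ) / L) =
        (1 - u / 8) * ((Y b.succ).card / L) - u / 8 * ((Y b.succ).card / L) := by ring
      rw [h5]
      linarith
    have hY'big : ∀ b, s0 * (2 * L) ^ k ≤ ((Y' b).card : ℝ) := by
      intro b
      refine le_trans ?_ (hY'card b)
      have h1 := hYbig b.succ
      have h2 : s0 * (2 * L) ^ k * (2 * L) ≤ (Y b.succ).card := by
        rw [mul_assoc, ← pow_succ]; exact h1
      have h3 : s0 * (2 * L) ^ k ≤ (Y b.succ).card / (2 * L) := by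
        rw [le_div_iff₀ (by positivity)]; exact h2
      refine h3.trans ?_
      have h4 : ((Y b.succ).card : ℝ) / (2 * L) = 1 / 2 * ((Y b.succ).card / L) := by
        field_simp
      rw [h4]
      apply mul_le_mul_of_nonneg_right _ (by positivity)
      linarith
    have hY'pos : ∀ b, 0 < ((Y' b).card : ℝ) := fun b =>
      lt_of_lt_of_le (mul_pos hs0 (by positivity)) (hY'big b)
    have hPot' : Pot c red L Y' (fun a b => lam a.succ b.succ) ≤ w k := by
      have h1 : (1 - u / 4) ^ 2 * Pot c red L Y' (fun a b => lam a.succ b.succ) ≤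
          Phi c red (L ^ 3) Y lam v := by
        unfold Pot Phi
        rw [Finset.mul_sum]
        refine Finset.sum_le_sum (fun a _ => ?_)
        rw [Finset.mul_sum]
        refine Finset.sum_le_sum (fun b _ => ?_)
        by_cases hab : a < b
        · simp only [hab, if_true]
          have hya : 0 < ((Y a.succ).card : ℝ) := lt_of_lt_of_le hs0 (hY _)
          have hyb : 0 < ((Y b.succ).card : ℝ) := lt_of_lt_of_le hs0 (hY _)
          have hcnt : (cnt c red (lam a.succ b.succ) (Y' a) (Y' b) : ℝ) ≤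
              cntv c red (lam a.succ b.succ) (lam 0 a.succ) (lam 0 b.succ) (Y a.succ)
                (Y b.succ) v := by
            unfold cnt cntv
            refine Nat.cast_le.2 (Finset.card_le_card ?_)
            intro p hp
            rw [Finset.mem_filter, Finset.mem_product] at hp ⊢
            obtain ⟨⟨hp1, hp2⟩, hp3⟩ := hp
            rw [Finset.mem_filter] at hp1 hp2
            exact ⟨⟨hp1.1, hp2.1⟩, hp3, hp1.2.1, hp2.2.1⟩
          have hprod : (1 - u / 4) ^ 2 * ((Y a.succ).card * (Y b.succ).card) ≤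
              L ^ 2 * ((Y' a).card * (Y' b).card) := by
            have h1 := hY'card a
            have h2 := hY'card b
            have h3 : 0 ≤ (1 - u / 4) * ((Y b.succ).card / L) :=
              mul_nonneg (by linarith) (by positivity)
            have h4 := mul_le_mul h1 h2 h3 (hY'pos a).le
            have h5 : (1 - u / 4) * (((Y a.succ).card : ℝ) / L) * ((1 - u / 4) *
                ((Y b.succ).card / L)) = (1 - u / 4) ^ 2 * ((Y a.succ).card * (Y b.succ).card) /
                L ^ 2 := by field_simp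
            rw [h5, div_le_iff₀ (by positivity)] at h4
            linarith
          rw [mul_div_assoc', div_le_div_iff₀ (mul_pos (hY'pos a) (hY'pos b)) (mul_pos hya hyb)]
          calc (1 - u / 4) ^ 2 * (L * (cnt c red (lam a.succ b.succ) (Y' a) (Y' b) : ℝ)) *
                ((Y a.succ).card * (Y b.succ).card)
              = (L * (cnt c red (lam a.succ b.succ) (Y' a) (Y' b) : ℝ)) *
                ((1 - u / 4) ^ 2 * ((Y a.succ).card * (Y b.succ).card)) := by ring
            _ ≤ (L * (cntv c red (lam a.succ b.succ) (lam 0 a.succ) (lam 0 b.succ) (Y a.succ)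
                (Y b.succ) v : ℝ)) * (L ^ 2 * ((Y' a).card * (Y' b).card)) := by gcongr
            _ = _ := by ring
        · simp [hab]
      exact le_of_mul_le_mul_left (h1.trans hv) hq'
    obtain ⟨v', hv'1, hv'2⟩ := ih (by omega) Y' (fun a b => lam a.succ b.succ)
      (fun a b => hlam _ _) hY'big hPot'
    refine ⟨Fin.cons v v', ?_, ?_⟩
    · intro a
      refine Fin.cases ?_ (fun a => ?_) a
      · simpa using hv0
      · have := hv'1 a
        rw [Finset.mem_filter] at this
        simpa using this.1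
    · intro a b
      refine Fin.cases ?_ (fun a => ?_) a
      · refine Fin.cases ?_ (fun b => ?_) b
        · intro h; exact absurd h (lt_irrefl _)
        · intro _
          have := hv'1 b
          rw [Finset.mem_filter] at this
          simpa using this.2
      · refine Fin.cases ?_ (fun b => ?_) b
        · intro h; exact absurd h (by simp)
        · intro h
          simpa using hv'2 a b (by simpa using h)

end Pool.Agent.H79.EO
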