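import Mathlib

set_option autoImplicit false

namespace Pool.Agent.H79.EO

open Finset

/-- second moment bound for pairwise independent tests -/
lemma second_moment {V S T : Type*} [Fintype S] [Fintype T] [DecidableEq T] (F : S → V → T)
    (hF : ∀ b b', b ≠ b' → (Fintype.card T : ℝ) *
      ((Finset.univ.filter (fun s => F s b = F s b')).card : ℝ) ≤ Fintype.card S)
    (hT : 0 < Fintype.card T) (Y : Finset V) (t : T) :
    ∑ s : S, (((Y.filter (fun b => F s b = t)).card : ℝ) - Y.card / Fintype.card T) ^ 2 ≤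
      Y.card * Fintype.card S := by
  classical
  set n : ℝ := (Fintype.card T : ℝ) with hn
  have hn0 : 0 < n := by rw [hn]; exact_mod_cast hT
  set m : ℝ := (Fintype.card S : ℝ) with hm
  have h1 : ∀ s, ∑ t : T, ((Y.filter (fun b => F s b = t)).card : ℝ) = Y.card := by
    intro s
    have := Finset.card_eq_sum_card_fiberwise (s := Y) (t := (Finset.univ : Finset T))
      (f := fun b => F s b) (fun b _ => Finset.mem_univ _)
    exact_mod_cast this.symm
  have h2 : ∀ s, ∑ t : T, ((Y.filter (fun b => F s b = t)).card : ℝ) ^ 2 =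
      ∑ b ∈ Y, ∑ b' ∈ Y, if F s b = F s b' then (1 : ℝ) else 0 := by
    intro s
    have e1 : ∀ t, ((Y.filter (fun b => F s b = t)).card : ℝ) ^ 2 =
        ∑ b ∈ Y, ∑ b' ∈ Y, if (F s b = t ∧ F s b' = t) then (1 : ℝ) else 0 := by
      intro t
      rw [pow_two, Finset.card_filter]
      push_cast
      rw [Finset.sum_mul_sum]
      refine Finset.sum_congr rfl (fun b _ => Finset.sum_congr rfl (fun b' _ => ?_))
      by_cases h : F s b = t <;> by_cases h' : F s b' = t <;> simp [h, h']
    simp only [e1]
    rw [Finset.sum_comm]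
    refine Finset.sum_congr rfl (fun b _ => ?_)
    rw [Finset.sum_comm]
    refine Finset.sum_congr rfl (fun b' _ => ?_)
    by_cases h : F s b = F s b'
    · rw [if_pos h, Finset.sum_eq_single (F s b)]
      · simp [h]
      · intro t _ ht
        rw [if_neg]
        rintro ⟨h', _⟩
        exact ht h'.symm
      · intro h'; exact absurd (Finset.mem_univ _) h'
    · rw [if_neg h]
      apply Finset.sum_eq_zero
      intro t _
      rw [if_neg]
      rintro ⟨h1, h2⟩
      exact h (h1.trans h2.symm)
  have h3 : ∑ s : S, ∑ b ∈ Y, ∑ b' ∈ Y, (if F s b = F s b' then (1 : ℝ) else 0) ≤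
      Y.card * m + Y.card ^ 2 * (m / n) := by
    rw [Finset.sum_comm]
    have h4 : ∀ b ∈ Y, ∑ s : S, ∑ b' ∈ Y, (if F s b = F s b' then (1 : ℝ) else 0) ≤
        m + Y.card * (m / n) := by
      intro b hb
      rw [Finset.sum_comm]
      have h5 : ∀ b' ∈ Y, ∑ s : S, (if F s b = F s b' then (1 : ℝ) else 0) ≤
          (if b' = b then m else 0) + m / n := by
        intro b' _
        have e : ∑ s : S, (if F s b = F s b' then (1 : ℝ) else 0) =
            ((Finset.univ.filter (fun s => F s b = F s b')).card : ℝ) := by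
          rw [Finset.card_filter]; push_cast; rfl
        rw [e]
        by_cases hbb : b' = b
        · rw [if_pos hbb]
          have h6 : ((Finset.univ.filter (fun s => F s b = F s b')).card : ℝ) ≤ m := by
            rw [hm]; exact_mod_cast Finset.card_le_univ _
          have h7 : 0 ≤ m / n := by positivity
          linarith
        · rw [if_neg hbb, zero_add, le_div_iff₀ hn0, mul_comm]
          exact hF b b' (fun h => hbb h.symm)
      calc ∑ b' ∈ Y, ∑ s : S, (if F s b = F s b' then (1 : ℝ) else 0)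
          ≤ ∑ b' ∈ Y, ((if b' = b then m else 0) + m / n) := Finset.sum_le_sum h5
        _ = m + Y.card * (m / n) := by
            rw [Finset.sum_add_distrib, Finset.sum_ite_eq' , if_pos hb, Finset.sum_const,
              nsmul_eq_mul]
    calc ∑ b ∈ Y, ∑ s : S, ∑ b' ∈ Y, (if F s b = F s b' then (1 : ℝ) else 0)
        ≤ ∑ _b ∈ Y, (m + Y.card * (m / n)) := Finset.sum_le_sum h4
      _ = Y.card * m + Y.card ^ 2 * (m / n) := by
          rw [Finset.sum_const, nsmul_eq_mul]; ring
  have h5 : ∀ s, ∑ t : T, (((Y.filter (fun b => F s b = t)).card : ℝ) - Y.card / n) ^ 2 =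
      (∑ b ∈ Y, ∑ b' ∈ Y, if F s b = F s b' then (1 : ℝ) else 0) - Y.card ^ 2 / n := by
    intro s
    rw [← h2 s]
    have e : ∀ t, (((Y.filter (fun b => F s b = t)).card : ℝ) - Y.card / n) ^ 2 =
        ((Y.filter (fun b => F s b = t)).card : ℝ) ^ 2 -
        2 * (Y.card / n) * ((Y.filter (fun b => F s b = t)).card : ℝ) + (Y.card / n) ^ 2 := by
      intro t; ring
    simp only [e]
    rw [Finset.sum_add_distrib, Finset.sum_sub_distrib, ← Finset.mul_sum, h1 s, Finset.sum_const,
      Finset.card_univ, nsmul_eq_mul, ← hn]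
    field_simp
    ring
  calc ∑ s : S, (((Y.filter (fun b => F s b = t)).card : ℝ) - Y.card / n) ^ 2
      ≤ ∑ s : S, ∑ t : T, (((Y.filter (fun b => F s b = t)).card : ℝ) - Y.card / n) ^ 2 := by
        apply Finset.sum_le_sum
        intro s _
        exact Finset.single_le_sum
          (f := fun t => (((Y.filter (fun b => F s b = t)).card : ℝ) - Y.card / n) ^ 2)
          (fun _ _ => sq_nonneg _) (Finset.mem_univ t)
    _ = (∑ s : S, ∑ b ∈ Y, ∑ b' ∈ Y, (if F s b = F s b' then (1 : ℝ) else 0)) -
        m * (Y.card ^ 2 / n) := by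
        simp only [h5]
        rw [Finset.sum_sub_distrib, Finset.sum_const, Finset.card_univ, nsmul_eq_mul, ← hm]
    _ ≤ Y.card * m + Y.card ^ 2 * (m / n) - m * (Y.card ^ 2 / n) := by linarith
    _ = Y.card * m := by ring

variable {p d : ℕ} [Fact p.Prime]

/-- inner product -/
def ip (x y : Fin d → ZMod p) : ZMod p := ∑ i, x i * y i

lemma ip_comm (x y : Fin d → ZMod p) : ip x y = ip y x := by
  unfold ip; exact Finset.sum_congr rfl (fun i _ => mul_comm _ _)

lemma ip_add (x x' y : Fin d → ZMod p) : ip (x + x') y = ip x y + ip x' y := by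
  unfold ip; rw [← Finset.sum_add_distrib]; exact Finset.sum_congr rfl (fun i _ => by
    simp only [Pi.add_apply]; ring)

lemma ip_smul (t : ZMod p) (x y : Fin d → ZMod p) : ip (t • x) y = t * ip x y := by
  unfold ip; rw [Finset.mul_sum]; exact Finset.sum_congr rfl (fun i _ => by
    simp only [Pi.smul_apply, smul_eq_mul]; ring)

lemma ip_sub_right (x y y' : Fin d → ZMod p) : ip x (y - y') = ip x y - ip x y' := by
  unfold ip; rw [← Finset.sum_sub_distrib]; exact Finset.sum_congr rfl (fun i _ => by
    simp only [Pi.sub_apply]; ring)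

lemma card_ker (w : Fin d → ZMod p) (hw : w ≠ 0) :
    p * ((Finset.univ.filter (fun y : Fin d → ZMod p => ip y w = 0)).card) =
      Fintype.card (Fin d → ZMod p) := by
  obtain ⟨i, hi⟩ : ∃ i, w i ≠ 0 := by
    by_contra h
    push Not at h
    exact hw (funext h)
  let y0 : Fin d → ZMod p := Pi.single i (w i)⁻¹
  have hy0 : ip y0 w = 1 := by
    unfold ip
    rw [Finset.sum_eq_single i]
    · simp [y0, hi]
    · intro j _ hj
      simp [y0, hj]
    · intro h; exact absurd (Finset.mem_univ _) h
  have hfib : ∀ t : ZMod p, (Finset.univ.filter (fun y : Fin d → ZMod p => ip y w = t)).card =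
      (Finset.univ.filter (fun y : Fin d → ZMod p => ip y w = 0)).card := by
    intro t
    apply Finset.card_bij (fun y _ => y + (-t) • y0)
    · intro y hy
      rw [Finset.mem_filter] at hy ⊢
      refine ⟨Finset.mem_univ _, ?_⟩
      rw [ip_add, ip_smul, hy.2, hy0]; ring
    · intro y _ y' _ h
      exact add_right_cancel h
    · intro y hy
      rw [Finset.mem_filter] at hy
      refine ⟨y + t • y0, ?_, ?_⟩
      · rw [Finset.mem_filter]
        refine ⟨Finset.mem_univ _, ?_⟩
        rw [ip_add, ip_smul, hy.2, hy0]; ring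
      · rw [add_assoc, ← add_smul]; simp
  have hsum := Finset.card_eq_sum_card_fiberwise (s := (Finset.univ : Finset (Fin d → ZMod p)))
    (t := (Finset.univ : Finset (ZMod p))) (f := fun y => ip y w) (fun b _ => Finset.mem_univ _)
  rw [Finset.card_univ] at hsum
  rw [hsum]
  simp only [hfib]
  rw [Finset.sum_const, Finset.card_univ, ZMod.card, smul_eq_mul]

/-- the label of a pair -/
def lab (x y : Fin d → ZMod p) : ℕ := (ip x y).val

lemma lab_comm (x y : Fin d → ZMod p) : lab x y = lab y x := by
  unfold lab; rw [ip_comm]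

lemma lab_eq_iff (x y : Fin d → ZMod p) (ℓ : ℕ) (hℓ : ℓ < p) :
    lab x y = ℓ ↔ ip x y = (ℓ : ZMod p) := by
  unfold lab
  constructor
  · intro h
    rw [← h, ZMod.natCast_val, ZMod.cast_id', id]
  · intro h
    rw [h, ZMod.val_natCast, Nat.mod_eq_of_lt hℓ]

lemma host_H1 (Y : Finset (Fin d → ZMod p)) (ℓ : ℕ) (hℓ : ℓ < p) :
    ∑ y : (Fin d → ZMod p), (((Y.filter (fun b => lab y b = ℓ)).card : ℝ) - Y.card / (p : ℝ)) ^ 2 ≤
      Y.card * (Fintype.card (Fin d → ZMod p) : ℝ) := by
  have hp : 0 < p := (Fact.out : p.Prime).pos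
  have := second_moment (V := Fin d → ZMod p) (S := Fin d → ZMod p) (T := ZMod p)
    (fun y b => ip y b) (by
      intro b b' hbb
      have h1 := card_ker (b - b') (sub_ne_zero.2 hbb)
      have h2 : (Finset.univ.filter (fun s : Fin d → ZMod p => ip s b = ip s b')) =
          (Finset.univ.filter (fun y : Fin d → ZMod p => ip y (b - b') = 0)) := by
        ext s
        simp only [Finset.mem_filter, Finset.mem_univ, true_and, ip_sub_right, sub_eq_zero]
      rw [h2, ZMod.card]
      exact_mod_cast h1.le) (by rw [ZMod.card]; exact hp) Y (ℓ : ZMod p)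
  rw [ZMod.card] at this
  refine le_trans (le_of_eq ?_) this
  refine Finset.sum_congr rfl (fun y _ => ?_)
  congr 3
  congr 1
  exact Finset.filter_congr (fun b _ => lab_eq_iff y b ℓ hℓ)

lemma host_H2 (Y : Finset (Fin d → ZMod p)) (ℓ ℓ' : ℕ) (hℓ : ℓ < p) (hℓ' : ℓ' < p) :
    ∑ x : (Fin d → ZMod p), ∑ y : (Fin d → ZMod p),
      (((Y.filter (fun b => lab b x = ℓ ∧ lab b y = ℓ')).card : ℝ) - Y.card / (p : ℝ) ^ 2) ^ 2 ≤
      Y.card * (Fintype.card (Fin d → ZMod p) : ℝ) ^ 2 := by
  have hp : 0 < p := (Fact.out : p.Prime).pos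
  have := second_moment (V := Fin d → ZMod p) (S := (Fin d → ZMod p) × (Fin d → ZMod p))
    (T := ZMod p × ZMod p)
    (fun s b => (ip s.1 b, ip s.2 b)) (by
      intro b b' hbb
      have h1 := card_ker (b - b') (sub_ne_zero.2 hbb)
      have h2 : (Finset.univ.filter (fun s : (Fin d → ZMod p) × (Fin d → ZMod p) =>
          (ip s.1 b, ip s.2 b) = (ip s.1 b', ip s.2 b'))) =
          (Finset.univ.filter (fun y : Fin d → ZMod p => ip y (b - b') = 0)) ×ˢ
          (Finset.univ.filter (fun y : Fin d → ZMod p => ip y (b - b') = 0)) := by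
        ext s
        simp only [Finset.mem_filter, Finset.mem_univ, true_and, ip_sub_right, sub_eq_zero,
          Finset.mem_product, Prod.mk.injEq]
      rw [h2, Finset.card_product, Fintype.card_prod, Fintype.card_prod, ZMod.card, ← h1]
      push_cast
      apply le_of_eq
      ring) (by rw [Fintype.card_prod, ZMod.card]; positivity) Y ((ℓ : ZMod p), (ℓ' : ZMod p))
  rw [Fintype.card_prod, Fintype.card_prod, ZMod.card, Fintype.sum_prod_type] at this
  push_cast at this
  refine le_trans (le_of_eq ?_) (this.trans (le_of_eq (by ring)))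
  refine Finset.sum_congr rfl (fun x _ => Finset.sum_congr rfl (fun y _ => ?_))
  rw [← pow_two (p : ℝ)]
  congr 3
  congr 1
  refine Finset.filter_congr (fun b _ => ?_)
  rw [lab_eq_iff b x ℓ hℓ, lab_eq_iff b y ℓ' hℓ', Prod.mk.injEq, ip_comm x b, ip_comm y b]

end Pool.Agent.H79.EO
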