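import Pool.Agent.H79.EOPart4
import Pool.Agent.H79.EOPart5

set_option autoImplicit false

namespace Pool.Agent.H79.EO

open Finset Classical

/-- the weights used in the blue embedding -/
noncomputable def wt (n k : ℕ) : ℝ :=
  (1 + 2 / (n : ℝ)) ^ (n - k) * (1 / (1024 * (n : ℝ) ^ 2) + (n - k : ℕ) * (1 / (1024 * (n : ℝ) ^ 3)))

lemma wt_nonneg (n k : ℕ) : 0 ≤ wt n k := by
  unfold wt
  positivity

lemma wt_step (n k : ℕ) (hn : 2 ≤ n) (hk : k < n) :
    (1 + 2 / (n : ℝ)) * wt n (k + 1) + 1 / (1024 * (n : ℝ) ^ 3) ≤ wt n k := by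
  have hn0 : (0 : ℝ) < n := by exact_mod_cast (by omega : 0 < n)
  have e : n - k = (n - (k + 1)) + 1 := by omega
  unfold wt
  rw [e]
  set j := n - (k + 1) with hj
  push_cast
  have h1 : (1 : ℝ) ≤ (1 + 2 / (n : ℝ)) ^ (j + 1) := by
    apply one_le_pow₀
    have : 0 < 2 / (n : ℝ) := by positivity
    linarith
  have h2 : (0 : ℝ) ≤ 1 / (1024 * (n : ℝ) ^ 3) := by positivity
  have h3 : 1 / (1024 * (n : ℝ) ^ 3) ≤ (1 + 2 / (n : ℝ)) ^ (j + 1) * (1 / (1024 * (n : ℝ) ^ 3)) :=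
    le_mul_of_one_le_left h2 h1
  calc (1 + 2 / (n : ℝ)) * ((1 + 2 / (n : ℝ)) ^ j * (1 / (1024 * (n : ℝ) ^ 2) +
        j * (1 / (1024 * (n : ℝ) ^ 3)))) + 1 / (1024 * (n : ℝ) ^ 3)
      ≤ (1 + 2 / (n : ℝ)) * ((1 + 2 / (n : ℝ)) ^ j * (1 / (1024 * (n : ℝ) ^ 2) +
        j * (1 / (1024 * (n : ℝ) ^ 3)))) +
        (1 + 2 / (n : ℝ)) ^ (j + 1) * (1 / (1024 * (n : ℝ) ^ 3)) := by linarith
    _ = _ := by rw [pow_succ]; ring

lemma pow_le_eight (n : ℕ) (hn : 2 ≤ n) (k : ℕ) (hk : k ≤ n) : (1 + 2 / (n : ℝ)) ^ k ≤ 8 := by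
  have hn0 : (0 : ℝ) < n := by exact_mod_cast (by omega : 0 < n)
  have h1 : (1 + 2 / (n : ℝ)) ≤ Real.exp (2 / n) := by
    have := Real.add_one_le_exp (2 / (n : ℝ)); linarith
  have h0 : (1 : ℝ) ≤ 1 + 2 / (n : ℝ) := by
    have : 0 < 2 / (n : ℝ) := by positivity
    linarith
  calc (1 + 2 / (n : ℝ)) ^ k ≤ (1 + 2 / (n : ℝ)) ^ n := pow_le_pow_right₀ h0 hk
    _ ≤ Real.exp (2 / n) ^ n := pow_le_pow_left₀ (by linarith) h1 n
    _ = Real.exp 2 := by
        rw [← Real.exp_nat_mul]; congr 1; field_simp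
    _ = Real.exp 1 ^ 2 := by rw [← Real.exp_nat_mul]; norm_num
    _ ≤ 2.7182818286 ^ 2 := by
        have := Real.exp_one_lt_d9
        exact pow_le_pow_left₀ (Real.exp_pos 1).le this.le 2
    _ ≤ 8 := by norm_num

lemma wt_le (n k : ℕ) (hn : 2 ≤ n) : wt n k ≤ 1 / (64 * (n : ℝ) ^ 2) := by
  have hn0 : (0 : ℝ) < n := by exact_mod_cast (by omega : 0 < n)
  unfold wt
  have h1 := pow_le_eight n hn (n - k) (Nat.sub_le _ _)
  have h2 : ((n - k : ℕ) : ℝ) ≤ n := by exact_mod_cast Nat.sub_le _ _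
  calc (1 + 2 / (n : ℝ)) ^ (n - k) * (1 / (1024 * (n : ℝ) ^ 2) +
        (n - k : ℕ) * (1 / (1024 * (n : ℝ) ^ 3)))
      ≤ 8 * (1 / (1024 * (n : ℝ) ^ 2) + n * (1 / (1024 * (n : ℝ) ^ 3))) := by gcongr
    _ = 1 / (64 * (n : ℝ) ^ 2) := by field_simp; norm_num

/-- Main combinatorial theorem: the host contains a red or a blue copy. -/
theorem host_arrows (n : ℕ) (hn : 2 ≤ n) (h : ℕ) (hh1 : n ≤ 2 ^ h) (hh2 : 2 ^ h ≤ 2 * n)
    (hh0 : 1 ≤ h) (p : ℕ) [Fact p.Prime] (hp : n ^ 2 * (2 * n ^ 2) ^ h * n ^ 2 < p)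
    (red : (Fin (32 * n * h) → ZMod p) → (Fin (32 * n * h) → ZMod p) → Prop)
    (r : Fin n → Fin n → ℕ) (hr : ∀ a b, r a b < n ^ 2) :
    (∃ v : Fin n → (Fin (32 * n * h) → ZMod p), Function.Injective v ∧
      (∀ a b, a < b → red (v a) (v b)) ∧
      ∀ a b a' b', a < b → a' < b' → r a b < r a' b' → lab (v a) (v b) < lab (v a') (v b')) ∨
    (∃ v : Fin n → (Fin (32 * n * h) → ZMod p), Function.Injective v ∧
      (∀ a b, a < b → ¬ red (v a) (v b)) ∧
      ∀ a b a' b', a < b → a' < b' → r a b < r a' b' → lab (v a) (v b) < lab (v a') (v b')) := by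
  by_contra hcon
  push Not at hcon
  obtain ⟨hred, hblue⟩ := hcon
  have hred' : ¬ ∃ v : Fin n → (Fin (32 * n * h) → ZMod p), Function.Injective v ∧
      (∀ a b, a < b → red (v a) (v b)) ∧
      ∀ a b a' b', a < b → a' < b' → r a b < r a' b' → lab (v a) (v b) < lab (v a') (v b') := by
    rintro ⟨v, h1, h2, h3⟩
    obtain ⟨a, b, a', b', h4, h5, h6, h7⟩ := hred v h1 h2
    exact absurd (h3 a b a' b' h4 h5 h6) (not_lt.2 h7)
  have hn' : (2 : ℝ) ≤ n := by exact_mod_cast hn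
  have hn0 : (0 : ℝ) < n := by linarith
  -- sizes
  set m : ℕ := n ^ 2 with hm
  have hm0 : 0 < m := by positivity
  set M : ℕ := m * (2 * m) ^ h with hM
  have hMm : M * m < p := hp
  -- lower bound for p
  have hp1 : 2 * n ^ 6 ≤ M * m := by
    have h1 : (2 * m) ^ 1 ≤ (2 * m) ^ h := Nat.pow_le_pow_right (by omega) hh0
    calc 2 * n ^ 6 = m * (2 * m) ^ 1 * m := by rw [hm]; ring
      _ ≤ m * (2 * m) ^ h * m := by gcongr
  have hp2 : (2 * (n : ℝ) ^ 6) ≤ p := by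
    have : 2 * n ^ 6 ≤ p := by omega
    exact_mod_cast this
  have hp128 : (128 : ℝ) ≤ p := by
    have : (2 : ℝ) ^ 6 ≤ (n : ℝ) ^ 6 := pow_le_pow_left₀ (by norm_num) hn' 6
    linarith
  set P : ℝ := (p : ℝ) with hP
  have hP0 : 0 < P := by linarith
  have hP1 : 1 ≤ P := by linarith
  have hn6 : (n : ℝ) ^ 6 ≤ P := by
    have : 0 ≤ (n : ℝ) ^ 6 := by positivity
    linarith
  have hn1 : (1 : ℝ) ≤ n := by linarith
  have hn5 : (n : ℝ) ^ 5 ≤ P := (pow_le_pow_right₀ hn1 (by norm_num)).trans hn6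
  have hn4 : (n : ℝ) ^ 4 ≤ P := (pow_le_pow_right₀ hn1 (by norm_num)).trans hn6
  have h4n2 : 4 * (n : ℝ) ^ 2 ≤ P := by
    have h1 : (2 : ℝ) ^ 4 ≤ (n : ℝ) ^ 4 := pow_le_pow_left₀ (by norm_num) hn' 4
    have h2 : 4 * (n : ℝ) ^ 2 ≤ 2 * n ^ 6 := by
      have h3 : (0:ℝ) ≤ (n : ℝ) ^ 2 := by positivity
      have h5 : 4 * (n : ℝ) ^ 2 ≤ (2 * (n : ℝ) ^ 4) * (n : ℝ) ^ 2 :=
        mul_le_mul_of_nonneg_right (by linarith) h3
      have h6 : (2 * (n : ℝ) ^ 4) * (n : ℝ) ^ 2 = 2 * (n : ℝ) ^ 6 := by ring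
      linarith
    linarith
  have h4096 : (4096 : ℝ) ≤ P ^ 2 := by nlinarith
  -- thresholds
  set κ : ℝ := 1 / (1024 * (n : ℝ) ^ 4 * P) with hκ
  have hκ0 : 0 < κ := by positivity
  set Z : ℝ := ((m * (2 * m) ^ h : ℕ) : ℝ) * 2 ^ h * m with hZ
  have hm0R : (0 : ℝ) < m := by exact_mod_cast hm0
  have hZ0 : 0 < Z := by positivity
  have hZ1 : 1 ≤ Z := by
    have h1 : (1 : ℝ) ≤ ((m * (2 * m) ^ h : ℕ) : ℝ) := by
      have : 0 < m * (2 * m) ^ h := by positivity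
      exact_mod_cast this
    have h2 : (1 : ℝ) ≤ 2 ^ h := one_le_pow₀ (by norm_num)
    have h3 : (1 : ℝ) ≤ m := by exact_mod_cast hm0
    calc (1 : ℝ) = 1 * 1 * 1 := by norm_num
      _ ≤ ((m * (2 * m) ^ h : ℕ) : ℝ) * 2 ^ h * m := by gcongr
  set τ : ℝ := κ / (2 * Z) with hτ
  have hτ0 : 0 < τ := by positivity
  have hκ1 : κ ≤ 1 := by
    rw [hκ, div_le_one (by positivity)]
    have h1 : (1 : ℝ) ≤ (n : ℝ) ^ 4 := one_le_pow₀ hn1
    nlinarith
  have hτ1 : τ ≤ 1 := by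
    rw [hτ, div_le_one (by positivity)]; linarith
  have hτκ : ∀ k < h, (((m * (2 * m) ^ k : ℕ) : ℝ) * 2 ^ k * m) * τ ≤ κ / 2 := by
    intro k hk
    have h1 : (((m * (2 * m) ^ k : ℕ) : ℝ) * 2 ^ k * m) ≤ Z := by
      rw [hZ]
      have h2 : m * (2 * m) ^ k ≤ m * (2 * m) ^ h := by
        apply Nat.mul_le_mul_left
        exact Nat.pow_le_pow_right (by omega) hk.le
      have h3 : ((m * (2 * m) ^ k : ℕ) : ℝ) ≤ ((m * (2 * m) ^ h : ℕ) : ℝ) := by exact_mod_cast h2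
      have h4 : (2 : ℝ) ^ k ≤ 2 ^ h := pow_le_pow_right₀ (by norm_num) hk.le
      gcongr
    calc (((m * (2 * m) ^ k : ℕ) : ℝ) * 2 ^ k * m) * τ ≤ Z * τ := by gcongr
      _ = κ / 2 := by rw [hτ]; field_simp
  -- lower bound for τ
  have hτp : 1 / P ^ 5 ≤ τ := by
    have hZle : 2 * Z ≤ 4 * n * P := by
      have h1 : (2 : ℝ) ^ h ≤ 2 * n := by exact_mod_cast hh2
      have h2 : ((m * (2 * m) ^ h : ℕ) : ℝ) * m ≤ P := by
        have : (m * (2 * m) ^ h) * m ≤ p := hp.le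
        rw [hP]; exact_mod_cast this
      calc 2 * Z = 2 * ((2 : ℝ) ^ h * (((m * (2 * m) ^ h : ℕ) : ℝ) * m)) := by rw [hZ]; ring
        _ ≤ 2 * ((2 * n) * P) := by gcongr
        _ = 4 * n * P := by ring
    have h5 : 1024 * (n : ℝ) ^ 4 * P * (2 * Z) ≤ P ^ 5 := by
      calc 1024 * (n : ℝ) ^ 4 * P * (2 * Z) ≤ 1024 * (n : ℝ) ^ 4 * P * (4 * n * P) := by gcongr
        _ = 4096 * (n : ℝ) ^ 5 * P ^ 2 := by ring
        _ ≤ P ^ 2 * P * P ^ 2 := by gcongr
        _ = P ^ 5 := by ring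
    rw [hτ, hκ, div_div]
    exact one_div_le_one_div_of_le (by positivity) h5
  -- leaf sizes
  set e : ℕ := 8 * n * h with he
  set s0 : ℝ := P ^ (3 * e) with hs0
  have hs0pos : 0 < s0 := by positivity
  set s : ℝ := s0 * (2 * P) ^ n with hs
  have hs1 : 1 ≤ s := by
    have h1 : 1 ≤ s0 := one_le_pow₀ hP1
    have h2 : (1 : ℝ) ≤ (2 * P) ^ n := one_le_pow₀ (by linarith)
    calc (1 : ℝ) = 1 * 1 := by norm_num
      _ ≤ _ := by rw [hs]; gcongr
  have hcardV : (Fintype.card (Fin (32 * n * h) → ZMod p) : ℝ) = P ^ (4 * e) := by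
    rw [Fintype.card_fun, Fintype.card_fin, ZMod.card]
    push_cast
    congr 1
    rw [he]; ring
  set N : ℝ := P ^ (4 * e) with hN
  have hN0 : 0 < N := by positivity
  have he16 : 16 ≤ e := by
    rw [he]
    calc 16 = 8 * 2 * 1 := by norm_num
      _ ≤ 8 * n * h := by gcongr
  -- not Str
  have hstr : ∀ i ∈ Finset.range M, ¬ Str (lab (p := p) (d := 32 * n * h)) red m κ s i h Finset.univ := by
    rintro i hi ⟨l, hl1, hl2, hl3⟩
    rw [Finset.mem_range] at hi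
    have hlen : n ≤ l.length := by rw [hl1]; exact hh1
    let Y : Fin n → Finset (Fin (32 * n * h) → ZMod p) := fun a => l[a.val]'(by omega)
    have hYmem : ∀ a, Y a ∈ l := fun a => List.getElem_mem _
    have hYrel : ∀ a b, a < b → Rel lab red m κ i (Y a) (Y b) := by
      intro a b hab
      rw [List.pairwise_iff_getElem] at hl3
      exact hl3 a.val b.val (by omega) (by omega) hab
    have hYs : ∀ a, s ≤ ((Y a).card : ℝ) := fun a => (hl2 _ (hYmem a)).2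
    have hYpos : ∀ a, 0 < ((Y a).card : ℝ) := fun a => lt_of_lt_of_le (by linarith) (hYs a)
    have hlam : ∀ a b : Fin n, i * m + r a b < p := by
      intro a b
      have h1 : i * m + r a b < i * m + m := by have := hr a b; omega
      have h2 : i * m + m ≤ M * m := by
        calc i * m + m = (i + 1) * m := by ring
          _ ≤ M * m := Nat.mul_le_mul_right _ (by omega)
      omega
    have hPot : Pot lab red P Y (fun a b => i * m + r a b) ≤ wt n n := by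
      have h1 : Pot lab red P Y (fun a b => i * m + r a b) ≤ ∑ _a : Fin n, ∑ _b : Fin n, P * κ := by
        unfold Pot
        refine Finset.sum_le_sum (fun a _ => Finset.sum_le_sum (fun b _ => ?_))
        by_cases hab : a < b
        · rw [if_pos hab, div_le_iff₀ (mul_pos (hYpos a) (hYpos b))]
          have := (hYrel a b hab).2 (r a b) (hr a b)
          calc P * (cnt lab red (i * m + r a b) (Y a) (Y b) : ℝ) ≤
                P * (κ * (Y a).card * (Y b).card) := by gcongr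
            _ = P * κ * ((Y a).card * (Y b).card) := by ring
        · rw [if_neg hab]; positivity
      refine h1.trans (le_of_eq ?_)
      rw [Finset.sum_const, Finset.sum_const, Finset.card_univ, Fintype.card_fin, nsmul_eq_mul,
        nsmul_eq_mul]
      unfold wt
      rw [Nat.sub_self, pow_zero, hκ]
      push_cast
      field_simp
      ring
    have hN1 : 512 * (n : ℝ) ^ 4 * (N * P ^ 2) ≤ s0 ^ 2 := by
      have h1 : 512 * (n : ℝ) ^ 4 ≤ P ^ 3 := by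
        calc 512 * (n : ℝ) ^ 4 ≤ P ^ 2 * P := by
              have : (512 : ℝ) ≤ P ^ 2 := by linarith
              gcongr
          _ = P ^ 3 := by ring
      calc 512 * (n : ℝ) ^ 4 * (N * P ^ 2) ≤ P ^ 3 * (P ^ (4 * e) * P ^ 2) := by rw [hN]; gcongr
        _ = P ^ (4 * e + 5) := by ring
        _ ≤ P ^ (6 * e) := pow_le_pow_right₀ hP1 (by omega)
        _ = s0 ^ 2 := by rw [hs0, ← pow_mul]; congr 1; ring
    have hN2 : 4 * (n : ℝ) ^ 3 * P ^ 5 * N ^ 2 ≤ 1 / (1024 * (n : ℝ) ^ 3) * s0 ^ 3 := by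
      rw [div_mul_eq_mul_div, one_mul, le_div_iff₀ (by positivity)]
      calc 4 * (n : ℝ) ^ 3 * P ^ 5 * N ^ 2 * (1024 * (n : ℝ) ^ 3)
          = 4096 * (n : ℝ) ^ 6 * P ^ 5 * (P ^ (4 * e)) ^ 2 := by rw [hN]; ring
        _ ≤ P ^ 2 * P * P ^ 5 * (P ^ (4 * e)) ^ 2 := by gcongr
        _ = P ^ (8 * e + 8) := by ring
        _ ≤ P ^ (9 * e) := pow_le_pow_right₀ hP1 (by omega)
        _ = s0 ^ 3 := by rw [hs0, ← pow_mul]; congr 1; ring
    obtain ⟨v, hv1, hv2⟩ := blue_embed (V := Fin (32 * n * h) → ZMod p) n hn lab red p P N s0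
      (1 / (1024 * (n : ℝ) ^ 3)) hP1 hs0pos
      (by
        intro Y ℓ hℓ
        have := host_H1 Y ℓ hℓ
        rw [hcardV] at this
        convert this)
      (by
        intro Y ℓ ℓ' hℓ hℓ'
        have := host_H2 Y ℓ ℓ' hℓ hℓ'
        rw [hcardV] at this
        convert this)
      hN1 hN2 (wt n) (wt_nonneg n) (fun k hk => wt_step n k hn hk) (fun k _ => wt_le n k hn)
      n le_rfl Y (fun a b => i * m + r a b) hlam hYs hPot
    obtain ⟨a, b, a', b', h4, h5, h6, h7⟩ := hblue v (by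
      intro a b hab
      by_contra hne
      have hdis : Disjoint (Y a) (Y b) := by
        rcases lt_or_gt_of_ne hne with h | h
        · exact (hYrel a b h).1
        · exact (hYrel b a h).1.symm
      exact (Finset.disjoint_left.1 hdis) (hv1 a) (hab ▸ hv1 b)) (fun a b hab => (hv2 a b hab).2)
    rw [(hv2 a b h4).1, (hv2 a' b' h5).1] at h7
    omega
  -- apply the rank argument
  refine rank_argument n m h (by omega) hm0 lab red r hr τ κ s hτ0 hτ1 hκ0 hs1 hτκ hred' h le_rfl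
    Finset.univ (Finset.range M) (by rw [Finset.card_range]) ?_ hstr
  rw [Finset.card_univ, hcardV]
  have hτn : 1 / P ^ (5 * n) ≤ τ ^ n := by
    calc 1 / P ^ (5 * n) = (1 / P ^ 5) ^ n := by rw [div_pow, one_pow, ← pow_mul]
      _ ≤ τ ^ n := pow_le_pow_left₀ (by positivity) hτp n
  have hQ : 4 * (n : ℝ) ^ 2 / τ ^ n ≤ P ^ (5 * n + 1) := by
    rw [div_le_iff₀ (pow_pos hτ0 n)]
    calc 4 * (n : ℝ) ^ 2 ≤ P := h4n2
      _ = P ^ (5 * n + 1) * (1 / P ^ (5 * n)) := by rw [pow_succ]; field_simp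
      _ ≤ P ^ (5 * n + 1) * τ ^ n := by gcongr
  have hQ0 : 0 ≤ 4 * (n : ℝ) ^ 2 / τ ^ n := by positivity
  have h2P : (2 * P) ^ n ≤ P ^ (2 * n) := by
    rw [pow_mul]
    apply pow_le_pow_left₀ (by linarith)
    nlinarith
  calc s * (4 * (n : ℝ) ^ 2 / τ ^ n) ^ h
      ≤ (P ^ (3 * e) * P ^ (2 * n)) * (P ^ (5 * n + 1)) ^ h := by
        rw [hs, hs0]
        gcongr
    _ = P ^ (3 * e + 2 * n + (5 * n + 1) * h) := by rw [← pow_mul, ← pow_add, ← pow_add]
    _ ≤ P ^ (4 * e) := by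
        apply pow_le_pow_right₀ hP1
        have h1 : n ≤ n * h := Nat.le_mul_of_pos_right n hh0
        have h2 : h ≤ n * h := Nat.le_mul_of_pos_left h (by omega)
        have h3 : (5 * n + 1) * h = 5 * (n * h) + h := by ring
        have h4 : e = 8 * (n * h) := by rw [he]; ring
        omega

end Pool.Agent.H79.EO
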